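import Pool.Agent.Helper2.LD.St5

/-!
# LD project, part B2: neighbours of copies of centres (module Port)
-/

set_option autoImplicit false

namespace Pool.Agent.Helper65.LD

open Pool.Agent.Helper2.LD

section

variable {V Q Λ B FB : Type}

private theorem piK_inj {N : ℕ} {j j' : ℕ} (h1 : j ≤ 2 * N) (h2 : j' ≤ 2 * N)
    (h : (piK N j : Kd N Λ B FB) = piK N j') : j = j' := by
  unfold piK at h
  rw [Kd.pi.injEq, Fin.mk.injEq, Nat.mod_eq_of_lt (by omega), Nat.mod_eq_of_lt (by omega)] at h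
  exact h

private theorem bsEq {N e : ℕ} {c : Core V Q Λ B FB} (hc : CoreAx N e c) {u z z' : V}
    (h1 : c.G.dist u z ≤ 2 * N) (h2 : c.G.dist u z' ≤ 2 * N)
    (h : c.bs (c.lb z) = c.bs (c.lb z')) : z = z' := by
  refine hc.k5 z z' ?_ h
  have h3 := hc.conn.dist_triangle (u := z) (v := u) (w := z')
  rw [SimpleGraph.dist_comm] at h1
  have h4 : c.G.edist z z' = (c.G.dist z z' : ℕ∞) :=
    (SimpleGraph.Reachable.coe_dist_eq_edist (hc.conn.preconnected z z')).symm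
  rw [h4]
  exact_mod_cast (by omega : c.G.dist z z' ≤ 4 * N + 2)

private theorem adjNe {N e : ℕ} {c : Core V Q Λ B FB} (hc : CoreAx N e c) {z z' : V}
    (h : z ≠ z') (h1 : c.G.dist z z' ≤ 2) : c.lb z ≠ c.lb z' := by
  intro h2
  refine h (hc.k5 z z' ?_ (by rw [h2]))
  have h4 : c.G.edist z z' = (c.G.dist z z' : ℕ∞) :=
    (SimpleGraph.Reachable.coe_dist_eq_edist (hc.conn.preconnected z z')).symm
  rw [h4]
  exact_mod_cast (by omega : c.G.dist z z' ≤ 4 * N + 2)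

/-- the two kinds of the middle of a ghost -/
private theorem midNe {N e : ℕ} {c : Core V Q Λ B FB} {s : Ch V Q} (hp : Par N e)
    (hc : CoreAx N e c) (hs : ChAx N c s) (hPb : StPb) (q : Q) :
    c.lb (c.ow ((c.nx^[e]) q)) ≠ c.lb (c.ow ((c.nx^[3 * e]) q)) := by
  obtain ⟨h1, h2, h3, h4, h5⟩ :=
    (hPb (K := Unit) N e c s hp hc hs true (c.ow q)).2.2 q rfl
  intro h6
  refine h2 (bsEq hc (u := c.ow q) ?_ ?_ (by rw [h6]))
  · rw [h4]; unfold Par at hp; omega
  · rw [h5]; unfold Par at hp; omega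

/-- plain kinds: neither types nor flags -/
private def PlK {N : ℕ} : Kd N Λ B FB → Prop
  | .ty _ _ => False
  | .fg _ => False
  | _ => True

private theorem glPl {N e : ℕ} {c : Core V Q Λ B FB} {h : GH V Q (Kd N Λ B FB)}
    (hok : ∀ z l, h = .fan z l → l ∈ NLb N e c) {κ : Kd N Λ B FB} (hκ : κ ∈ gl N e c h) :
    PlK κ := by
  have key : ∀ h : GH V Q (Kd N Λ B FB), (∀ z l, h ≠ .fan z l) → κ ∈ gl N e c h → PlK κ := by
    intro h hf hκ
    cases h with
    | core x => simp only [gl, Finset.mem_singleton] at hκ; subst hκ; trivial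
    | gho q j =>
      simp only [gl] at hκ
      split_ifs at hκ <;> simp only [Finset.mem_insert, Finset.mem_singleton] at hκ <;>
        rcases hκ with rfl | rfl <;> trivial
    | tru x j =>
      simp only [gl, Finset.mem_insert, Finset.mem_singleton] at hκ
      rcases hκ with rfl | rfl <;> trivial
    | fan x l => exact absurd rfl (hf x l)
  by_cases hf : ∃ z l, h = .fan z l
  · obtain ⟨z, l, rfl⟩ := hf
    have h1 := hok z l rfl
    have h2 : κ ∈ l := hκ
    rcases h1 with ⟨x, h3⟩ | ⟨q, j, _, _, h3⟩ | ⟨x, j, _, _, h3⟩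
    · exact key (.core x) (by simp) (h3 ▸ h2)
    · exact key (.gho q j) (by simp) (h3 ▸ h2)
    · exact key (.tru x j) (by simp) (h3 ▸ h2)
  · push Not at hf
    exact key h hf hκ

private theorem pbNF {N e : ℕ} {c : Core V Q Λ B FB} {s : Ch V Q} {K : Type} (b : Bool) (u : V)
    (h : GH V Q K) : ∀ z l, pb N e c s b u h ≠ .fan z l := by
  intro z l
  cases h with
  | core x => simp only [pb]; split_ifs <;> simp
  | gho q j => simp only [pb, GH.dp]; split_ifs <;> simp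
  | tru x j => simp only [pb, GH.dp]; split_ifs <;> simp
  | fan x l => simp [pb, GH.dp]

private theorem okPl {N e : ℕ} {c : Core V Q Λ B FB} {h : GH V Q (Kd N Λ B FB)}
    (hok : okG N e c h) {κ : Kd N Λ B FB} (hκ : κ ∈ gl N e c h) : PlK κ := by
  refine glPl ?_ hκ
  rintro z l rfl
  exact hok.1

private theorem capPl {N e : ℕ} {c : Core V Q Λ B FB} {s : Ch V Q} {b : Bool} {u : V}
    {h : GH V Q (Kd N Λ B FB)} (hok : okG N e c h) {κ : Kd N Λ B FB}
    (hκ : κ ∈ gl N e c h ∨ κ ∈ gl N e c (pb N e c s b u h)) : PlK κ := by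
  rcases hκ with hκ | hκ
  · exact okPl hok hκ
  · exact glPl (fun z l h1 => absurd h1 (pbNF b u h z l)) hκ

private theorem ownLe {N e : ℕ} {c : Core V Q Λ B FB} {s : Ch V Q} {b : Bool} {u : V}
    {h : GH V Q (Kd N Λ B FB)} (hok : okT N e c s (.nat b u h)) :
    c.G.dist u (h.own c) ≤ 2 * N := by
  rcases hok.2.2 with h1 | ⟨_, q, h1, h2⟩
  · unfold lev at h1
    have : dep N b ≤ 2 * N := by unfold dep; split_ifs <;> omega
    omega
  · subst h2
    change c.G.dist u (c.ow q) ≤ _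
    rw [h1]; simp

/-- fans in pieces are own fans of `b = true` -/
private theorem fanOwn {N e : ℕ} {c : Core V Q Λ B FB} {s : Ch V Q} (hp : Par N e)
    (hc : CoreAx N e c) {b : Bool} {u z : V}
    {l : Finset (Kd N Λ B FB)} (hok : okT N e c s (.nat b u (.fan z l))) : b = true ∧ z = u := by
  rcases hok.2.2 with h1 | ⟨_, q, h1, h2⟩
  · unfold lev at h1
    simp only [GH.own, GH.ht] at h1
    unfold Par at hp
    cases b with
    | false =>
      simp only [dep] at h1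
      norm_num at h1
      omega
    | true =>
      simp only [dep, if_true] at h1
      refine ⟨rfl, ?_⟩
      have h3 : c.G.dist u z = 0 := by omega
      exact ((hc.conn.preconnected u z).dist_eq_zero_iff.1 h3).symm
  · cases h2

private theorem mCore {N e : ℕ} {c : Core V Q Λ B FB} {z : V} (κ : Kd N Λ B FB) :
    κ ∈ gl N e c (.core z) ↔ κ = .kap (c.lb z) := by simp [gl]

private theorem mGhoE {N e : ℕ} {c : Core V Q Λ B FB} {q : Q} (κ : Kd N Λ B FB) :
    κ ∈ gl N e c (.gho q e) ↔ κ = .kap (c.lb (c.ow ((c.nx^[e]) q))) ∨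
      κ = .kap (c.lb (c.ow ((c.nx^[3 * e]) q))) := by simp [gl]

private theorem mGho {N e j : ℕ} {c : Core V Q Λ B FB} {q : Q} (h : j ≠ e) (κ : Kd N Λ B FB) :
    κ ∈ gl N e c (.gho q j) ↔ κ = .gam (c.bs (c.lb (c.ow q))) (c.fl q) ∨ κ = piK N j := by
  simp [gl, h]

private theorem mTru {N e j : ℕ} {c : Core V Q Λ B FB} {z : V} (κ : Kd N Λ B FB) :
    κ ∈ gl N e c (.tru z j) ↔ κ = .del (c.lb z) ∨ κ = piK N j := by simp [gl]

/-- adjacency of natural hubs in a piece -/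
private def NA {K : Type} (N e : ℕ) (c : Core V Q Λ B FB) (s : Ch V Q) (b : Bool) (u : V)
    (h g : GH V Q K) : Prop :=
  (h ≠ .core u ∧ g = pb N e c s b u h) ∨ (g ≠ .core u ∧ h = pb N e c s b u g)

private theorem NAsymm {K : Type} {N e : ℕ} {c : Core V Q Λ B FB} {s : Ch V Q} {b : Bool} {u : V}
    {h g : GH V Q K} (h1 : NA N e c s b u h g) : NA N e c s b u g h := Or.symm h1

private theorem adjNat {N e : ℕ} {c : Core V Q Λ B FB} {s : Ch V Q} {b : Bool} {u : V}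
    {h : GH V Q (Kd N Λ B FB)} {x y : TV N e c s} (h1 : (TG N e c s).Adj x y)
    (h2 : x.1 = .nat b u h) :
    (∃ g, y.1 = .nat b u g ∧ NA N e c s b u h g) ∨ y.1 = .cap b u h := by
  obtain ⟨_, h3⟩ := h1
  rw [h2] at h3
  obtain ⟨y, hy⟩ := y
  cases y with
  | nat b' u' h' =>
    left
    rcases h3 with ⟨rfl, rfl, h4, h5⟩ | ⟨rfl, rfl, h4, h5⟩
    · exact ⟨h', rfl, Or.inl ⟨h4, h5⟩⟩
    · exact ⟨h', rfl, Or.inr ⟨h4, h5⟩⟩
  | cap b' u' h' =>
    right
    rcases h3 with h3 | ⟨rfl, rfl, rfl⟩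
    · exact h3.elim
    · rfl
  | pth b' u' j' => rcases h3 with h3 | h3 <;> exact h3.elim
  | rt => rcases h3 with h3 | h3 <;> exact h3.elim

private theorem fanNb {K : Type} {N e : ℕ} {c : Core V Q Λ B FB} {s : Ch V Q} {b : Bool} {u z : V}
    {l : Finset K} {g : GH V Q K} (h1 : NA N e c s b u (.fan z l) g) :
    g = .tru z (2 * N - 1) := by
  rcases h1 with ⟨_, h2⟩ | ⟨_, h2⟩
  · exact h2
  · exact absurd h2.symm (pbNF b u g z l)

end

section

variable {V Q Λ B FB : Type} [Fintype Λ] [Fintype B] [Fintype FB]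

private theorem memTyl {N : ℕ} {τ : Set (Λ × ℕ)} (κ : Kd N Λ B FB) :
    κ ∈ tyl (B := B) (FB := FB) N τ ↔ ∃ (l : Λ) (d : Fin (2 * N)), κ = Kd.ty l d ∧ (l, (d : ℕ)) ∈ τ := by
  simp [tyl]

private theorem tylTy {N : ℕ} {τ : Set (Λ × ℕ)} (l : Λ) (d : Fin (2 * N)) :
    (Kd.ty l d : Kd N Λ B FB) ∈ tyl (B := B) (FB := FB) N τ ↔ (l, (d : ℕ)) ∈ τ := by
  rw [memTyl]
  constructor
  · rintro ⟨l', d', h1, h2⟩
    rw [Kd.ty.injEq] at h1
    obtain ⟨rfl, rfl⟩ := h1
    exact h2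
  · intro h
    exact ⟨l, d, rfl, h⟩

private theorem tylPl {N : ℕ} {τ : Set (Λ × ℕ)} (κ : Kd N Λ B FB) (h : PlK κ) :
    κ ∉ tyl (B := B) (FB := FB) N τ := by
  rw [memTyl]
  rintro ⟨l', d', rfl, h2⟩
  exact h

private theorem tylFg {N : ℕ} {τ : Set (Λ × ℕ)} (i : Fin 4) :
    (Kd.fg i : Kd N Λ B FB) ∉ tyl (B := B) (FB := FB) N τ := by
  rw [memTyl]
  rintro ⟨l', d', h1, h2⟩
  cases h1

private theorem capFg {N e : ℕ} {c : Core V Q Λ B FB} {s : Ch V Q} {b : Bool} {u : V}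
    {h : GH V Q (Kd N Λ B FB)} (hok : okG N e c h) (i : Fin 4) :
    (Kd.fg i : Kd N Λ B FB) ∈ tl N e c s (.cap b u h) ↔ i = (if b = true then 1 else 0) := by
  simp only [tl, Finset.mem_union, Finset.mem_singleton, Kd.fg.injEq]
  constructor
  · rintro ((h1 | h1) | h1)
    · exact (capPl (s := s) (b := b) (u := u) hok h1).elim
    · exact absurd h1 (tylFg i)
    · exact h1
  · intro h1; exact Or.inr h1

private theorem capP {N e : ℕ} {c : Core V Q Λ B FB} {s : Ch V Q} {b : Bool} {u : V}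
    {h : GH V Q (Kd N Λ B FB)} (κ : Kd N Λ B FB) (hκ : PlK κ) :
    κ ∈ tl N e c s (.cap b u h) ↔ (κ ∈ gl N e c h ∨ κ ∈ gl N e c (pb N e c s b u h)) := by
  simp only [tl, Finset.mem_union, Finset.mem_singleton]
  constructor
  · rintro ((h1 | h1) | h1)
    · exact h1
    · exact absurd h1 (tylPl κ hκ)
    · subst h1; exact hκ.elim
  · intro h1; exact Or.inl (Or.inl h1)

private theorem pthFg {N e : ℕ} {c : Core V Q Λ B FB} {s : Ch V Q} {b : Bool} {u : V} {j : ℕ}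
    (i : Fin 4) :
    (Kd.fg i : Kd N Λ B FB) ∈ tl N e c s (.pth b u j) ↔
      i = 2 ∨ i = (if b = true then 1 else 0) := by
  simp [tl, tylFg, piK]

end

section

variable {V Q Λ B FB : Type}

/-- hubs with a label `{kap a}` -/
private theorem labK {N e : ℕ} {c : Core V Q Λ B FB} {s : Ch V Q} (hp : Par N e)
    (hc : CoreAx N e c) (hs : ChAx N c s) (hPb : StPb) {h : GH V Q (Kd N Λ B FB)} {a : Λ}
    (hl : gl N e c h = {Kd.kap a}) :
    (∃ z, h = .core z ∧ c.lb z = a) ∨ ∃ z l, h = .fan z l := by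
  have hm : ∀ κ, κ ∈ gl N e c h → κ = .kap a := fun κ hκ => by
    rw [hl] at hκ; simpa using hκ
  cases h with
  | core z =>
    left
    have h1 := hm (.kap (c.lb z)) ((mCore _).2 rfl)
    rw [Kd.kap.injEq] at h1
    exact ⟨z, rfl, h1⟩
  | fan z l => exact Or.inr ⟨z, l, rfl⟩
  | gho q j =>
    exfalso
    by_cases hj : j = e
    · subst hj
      have h1 := hm _ ((mGhoE _).2 (Or.inl rfl))
      have h2 := hm _ ((mGhoE _).2 (Or.inr rfl))
      rw [Kd.kap.injEq] at h1 h2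
      exact midNe hp hc hs hPb q (h1.trans h2.symm)
    · have h1 := hm _ ((mGho hj _).2 (Or.inl rfl))
      cases h1
  | tru z j =>
    exfalso
    have h1 := hm _ ((mTru _).2 (Or.inl rfl))
    cases h1

/-- hubs with the label of a ghost at position `1` -/
private theorem labG {N e : ℕ} {c : Core V Q Λ B FB} (hp : Par N e)
    {h : GH V Q (Kd N Λ B FB)} (hok : okG N e c h) {q : Q}
    (hl : gl N e c h = gl N e c (.gho q 1)) :
    (∃ q', h = .gho q' 1 ∧ c.fl q' = c.fl q ∧ c.bs (c.lb (c.ow q')) = c.bs (c.lb (c.ow q))) ∨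
      ∃ z l, h = .fan z l := by
  have h1e : 1 ≠ e := by unfold Par at hp; omega
  have hm : ∀ κ, κ ∈ gl N e c h → κ = .gam (c.bs (c.lb (c.ow q))) (c.fl q) ∨ κ = piK N 1 :=
    fun κ hκ => by rw [hl] at hκ; exact (mGho h1e _).1 hκ
  cases h with
  | core z =>
    exfalso
    rcases hm _ ((mCore _).2 rfl) with h1 | h1 <;> cases h1
  | fan z l => exact Or.inr ⟨z, l, rfl⟩
  | gho q' j =>
    by_cases hj : j = e
    · exfalso
      subst hj
      rcases hm _ ((mGhoE _).2 (Or.inl rfl)) with h1 | h1 <;> cases h1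
    · left
      have h1 := hm _ ((mGho hj _).2 (Or.inl rfl))
      have h2 := hm _ ((mGho hj _).2 (Or.inr rfl))
      rcases h1 with h1 | h1
      · rw [Kd.gam.injEq] at h1
        rcases h2 with h2 | h2
        · cases h2
        · have h3 := piK_inj hok.2 (by unfold Par at hp; omega) h2
          subst h3
          exact ⟨q', rfl, h1.2, h1.1⟩
      · cases h1
  | tru z j =>
    exfalso
    rcases hm _ ((mTru _).2 (Or.inl rfl)) with h1 | h1 <;> cases h1

/-- hubs with the label of a trunk at position `1` -/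
private theorem labT {N e : ℕ} {c : Core V Q Λ B FB} (hp : Par N e)
    {h : GH V Q (Kd N Λ B FB)} (hok : okG N e c h) {u : V}
    (hl : gl N e c h = gl N e c (.tru u 1)) :
    (∃ z, h = .tru z 1 ∧ c.lb z = c.lb u) ∨ ∃ z l, h = .fan z l := by
  have hm : ∀ κ, κ ∈ gl N e c h → κ = .del (c.lb u) ∨ κ = piK N 1 :=
    fun κ hκ => by rw [hl] at hκ; exact (mTru _).1 hκ
  cases h with
  | core z =>
    exfalso
    rcases hm _ ((mCore _).2 rfl) with h1 | h1 <;> cases h1
  | fan z l => exact Or.inr ⟨z, l, rfl⟩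
  | gho q' j =>
    exfalso
    by_cases hj : j = e
    · subst hj
      rcases hm _ ((mGhoE _).2 (Or.inl rfl)) with h1 | h1 <;> cases h1
    · rcases hm _ ((mGho hj _).2 (Or.inl rfl)) with h1 | h1 <;> cases h1
  | tru z j =>
    left
    have h1 := hm _ ((mTru _).2 (Or.inl rfl))
    have h2 := hm _ ((mTru _).2 (Or.inr rfl))
    rcases h1 with h1 | h1
    · rw [Kd.del.injEq] at h1
      rcases h2 with h2 | h2
      · cases h2
      · have h3 := piK_inj hok.2.le (by unfold Par at hp; omega) h2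
        subst h3
        exact ⟨z, rfl, h1⟩
    · cases h1

/-- the parent of a core vertex next to the centre -/
private theorem pbOne {N e : ℕ} {c : Core V Q Λ B FB} {s : Ch V Q} (hp : Par N e)
    (hc : CoreAx N e c) (hs : ChAx N c s) (hPb : StPb) {b : Bool} {u w : V}
    (h : c.G.Adj u w) : pb N e c s b u (.core w : GH V Q (Kd N Λ B FB)) = .core u := by
  have h1 : c.G.dist u w = 1 := SimpleGraph.dist_eq_one_iff_adj.2 h
  refine (hPb (K := Kd N Λ B FB) N e c s hp hc hs b u).1 w u ?_ h.symm ?_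
  · rw [h1]; unfold Par at hp; omega
  · rw [h1]; simp

end

section

variable {V Q Λ B FB W : Type} [Fintype Λ] [Fintype B] [Fintype FB]

/-- neighbours with a label `{kap a}` -/
private theorem nbK {N e : ℕ} {c : Core V Q Λ B FB} {s : Ch V Q} (hp : Par N e)
    (hc : CoreAx N e c) (hs : ChAx N c s) (hPb : StPb) {b : Bool} {u : V}
    {h : GH V Q (Kd N Λ B FB)} {x y : TV N e c s} {a : Λ} (h1 : (TG N e c s).Adj x y)
    (h2 : x.1 = .nat b u h) (h3 : tL N e c s y = {Kd.kap a}) :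
    (∃ z, y.1 = .nat b u (.core z) ∧ NA N e c s b u h (.core z) ∧ c.lb z = a) ∨
      ∃ z l, y.1 = .nat b u (.fan z l) ∧ NA N e c s b u h (.fan z l) := by
  rcases adjNat h1 h2 with ⟨g, h4, h5⟩ | h4
  · have h6 : gl N e c g = {Kd.kap a} := by
      unfold tL at h3
      rw [h4] at h3
      exact h3
    rcases labK hp hc hs hPb h6 with ⟨z, rfl, h7⟩ | ⟨z, l, rfl⟩
    · exact Or.inl ⟨z, h4, h5, h7⟩
    · exact Or.inr ⟨z, l, h4, h5⟩
  · exfalso
    have hy := y.2
    unfold tL at h3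
    rw [h4] at h3 hy
    have h5 := (capFg (s := s) (b := b) (u := u) hy.2.1 (if b = true then 1 else 0)).2 rfl
    rw [h3] at h5
    simp at h5

omit [Fintype Λ] [Fintype B] [Fintype FB] in
private theorem rgStep {N e : ℕ} {c : Core V Q Λ B FB} {s : Ch V Q} {r : ℕ} {x y : TV N e c s}
    (h : (TG N e c s).Adj x y) (hr : Rg N e c s r x.1) : Rg N e c s (r + 1) y.1 := by
  obtain ⟨x', υ, h1, h2, h3⟩ := hr
  have h4 : x' = x := Subtype.ext h1
  subst h4
  refine ⟨y, υ, rfl, h2, ?_⟩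
  calc (TG N e c s).edist υ y ≤ (TG N e c s).edist υ x' + (TG N e c s).edist x' y :=
        SimpleGraph.edist_triangle
    _ ≤ (r : ℕ∞) + 1 := by
        gcongr
        exact SimpleGraph.edist_le_one_iff_adj_or_eq.2 (Or.inl h)
    _ = ((r + 1 : ℕ) : ℕ∞) := by norm_cast

omit [Fintype Λ] [Fintype B] [Fintype FB] in
private theorem rgMono {N e : ℕ} {c : Core V Q Λ B FB} {s : Ch V Q} {r r' : ℕ} (hrr : r ≤ r')
    {t : TH V Q (Kd N Λ B FB)} (hr : Rg N e c s r t) : Rg N e c s r' t := by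
  obtain ⟨x', υ, h1, h2, h3⟩ := hr
  exact ⟨x', υ, h1, h2, h3.trans (by exact_mod_cast hrr)⟩

/-- argument (*) -/
private theorem star {N e : ℕ} {c : Core V Q Λ B FB} {s : Ch V Q} {M : SimpleGraph W}
    {lm : W → Finset (Kd N Λ B FB)} (hR : StRg) (hx : Cx N e c s M lm)
    {t t' : TH V Q (Kd N Λ B FB)} {g g' : W} (h1 : Pt N e c s M lm t g)
    (h2 : Pt N e c s M lm t' g') (h3 : M.Adj g g') (h4 : Rg N e c s (2 * N - 1) t') :
    ∃ x : TV N e c s, x.1 = t' ∧ Rg N e c s (2 * N) t ∧ ∃ y : TV N e c s, y.1 = t ∧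
      (TG N e c s).Adj x y := by
  have hpar := hx.par
  unfold Par at hpar
  obtain ⟨x, y, h5, h6, h7⟩ := (hR.nbr N e c s M lm hx t' g' h4 h2).2 g h3.symm
  have h8 : Rg N e c s (2 * N) y.1 := by
    have h9 := rgStep h6 (h5 ▸ h4)
    rwa [show 2 * N - 1 + 1 = 2 * N by omega] at h9
  have h10 := hR.uniq' N e c s M lm hx y.1 t g h8 h7 h1
  exact ⟨x, h5, h10 ▸ h8, y, h10, h6⟩

/-- argument (***) -/
private theorem star3 {N e : ℕ} {c : Core V Q Λ B FB} {s : Ch V Q} {M : SimpleGraph W}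
    {lm : W → Finset (Kd N Λ B FB)} (hR : StRg) (hM : StMinj) (hx : Cx N e c s M lm)
    {x y : TV N e c s} {g g' : W} (h1 : Pt N e c s M lm x.1 g) (h2 : Rg N e c s (2 * N) x.1)
    (h3 : M.Adj g g') (h4 : (TG N e c s).Adj x y) (h5 : tL N e c s y = lm g')
    (h6 : Rg N e c s (2 * N - 1) y.1) : Pt N e c s M lm y.1 g' := by
  obtain ⟨g'', h7⟩ := (hM.ex N e c s M lm hx).2 y.1 y.2
  obtain ⟨g3, h8, h9⟩ := (hR.nbr N e c s M lm hx y.1 g'' h6 h7).1 y x rfl h4.symm
  obtain ⟨g0, _, h10⟩ := hR.uniq N e c s M lm hx x.1 h2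
  have h11 : g3 = g := (h10 g3 h8).trans (h10 g h1).symm
  subst h11
  have h12 : g'' = g' := by
    by_contra h13
    refine hM.two N e c s M lm hx g'' g' h13 ?_ ?_
    · exact SimpleGraph.Walk.edist_le
        (SimpleGraph.Walk.cons h9 (SimpleGraph.Walk.cons h3 .nil))
    · rw [(hM.nbr N e c s M lm hx y g'' h7).1, h5]
  rw [← h12]
  exact h7

/-- a partner of a neighbour -/
private theorem ptn {N e : ℕ} {c : Core V Q Λ B FB} {s : Ch V Q} {M : SimpleGraph W}
    {lm : W → Finset (Kd N Λ B FB)} (hM : StMinj) (hx : Cx N e c s M lm)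
    {g g' : W} (h3 : M.Adj g g') :
    ∃ x y : TV N e c s, Pt N e c s M lm x.1 g' ∧ tL N e c s x = lm g' ∧ (TG N e c s).Adj x y ∧
      tL N e c s y = lm g := by
  obtain ⟨t, ht⟩ := (hM.ex N e c s M lm hx).1 g'
  obtain ⟨h1, h2⟩ := ht
  obtain ⟨h4, _, h5⟩ := hM.nbr N e c s M lm hx ⟨t, h1⟩ g' ⟨h1, h2⟩
  obtain ⟨y, ⟨h6, h7⟩, _⟩ := h5 g h3.symm
  exact ⟨⟨t, h1⟩, y, ⟨h1, h2⟩, h4.symm, h6, h7⟩

/-- classification of hubs with plain labels -/
private theorem clsP {N e : ℕ} {c : Core V Q Λ B FB} {s : Ch V Q} (hC : StCls) (hp : Par N e)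
    (hc : CoreAx N e c) (hs : ChAx N c s) (x : TV N e c s)
    (hl : ∀ κ ∈ tL N e c s x, PlK κ) :
    Rg N e c s (2 * N - 1) x.1 ∨
    (∃ u w, c.G.Adj u w ∧ x.1 = .nat true u (.core w)) ∨
    (∃ u q, c.ow q = u ∧ x.1 = .nat true u (.gho q 1)) ∨
    (∃ u, x.1 = .nat false u (.core u)) ∨
    (∃ u, x.1 = .nat true u (.core u)) ∨ (∃ u j, x.1 = .nat true u (.tru u j)) ∨
    (∃ u l, x.1 = .nat true u (.fan u l)) ∨
    ∃ u q j, c.ow q = u ∧ x.1 = .nat false u (.gho q j) := by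
  rcases hC.cls N e c s hp hc hs x.1 x.2 with h | h | h | h | ⟨b, u, h⟩ | h | h | h | h | h
  · exact Or.inl h
  · exact Or.inr (Or.inl h)
  · exact Or.inr (Or.inr (Or.inl h))
  · exact Or.inr (Or.inr (Or.inr (Or.inl h)))
  · exfalso
    refine hl (.fg 2) ?_
    unfold tL
    rw [h]
    exact (pthFg _).2 (Or.inl rfl)
  · exfalso
    refine hl (.fg 3) ?_
    unfold tL
    rw [h]
    simp [tl]
  · exact Or.inr (Or.inr (Or.inr (Or.inr (Or.inl h))))
  · exact Or.inr (Or.inr (Or.inr (Or.inr (Or.inr (Or.inl h)))))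
  · exact Or.inr (Or.inr (Or.inr (Or.inr (Or.inr (Or.inr (Or.inl h))))))
  · exact Or.inr (Or.inr (Or.inr (Or.inr (Or.inr (Or.inr (Or.inr h))))))

/-- a neighbour of an own fan has no label `{kap a}` -/
private theorem fanNo {N e : ℕ} {c : Core V Q Λ B FB} {s : Ch V Q} (hp : Par N e)
    (hc : CoreAx N e c) (hs : ChAx N c s) (hPb : StPb) {u : V} {l : Finset (Kd N Λ B FB)}
    {x y : TV N e c s} {a : Λ} (h1 : (TG N e c s).Adj x y)
    (h2 : x.1 = .nat true u (.fan u l)) (h3 : tL N e c s y = {Kd.kap a}) : False := by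
  rcases nbK hp hc hs hPb h1 h2 h3 with ⟨z, _, h4, _⟩ | ⟨z, l', _, h4⟩
  · cases fanNb h4
  · cases fanNb h4

private theorem notRgRoot {N e : ℕ} {c : Core V Q Λ B FB} {s : Ch V Q} (hC : StCls)
    {M : SimpleGraph W} {lm : W → Finset (Kd N Λ B FB)} (hx : Cx N e c s M lm) {u : V} {g : W}
    (h : Pt N e c s M lm (.nat true u (.core u)) g) :
    ¬ Rg N e c s (2 * N) (.nat true u (.core u)) := by
  obtain ⟨h1, _⟩ := h
  exact hC.free N e c s hx.par hx.ax hx.ch _ h1 (Or.inr (Or.inl ⟨u, rfl⟩))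

omit [Fintype Λ] [Fintype B] [Fintype FB] in
private theorem plOne {N : ℕ} {a : Λ} : ∀ κ ∈ ({Kd.kap a} : Finset (Kd N Λ B FB)), PlK κ := by
  intro κ hκ
  rw [Finset.mem_singleton] at hκ
  subst hκ
  trivial

/-- a label `{kap a}` is no label of these hubs -/
private theorem kNot {N e : ℕ} {c : Core V Q Λ B FB} {s : Ch V Q} (hp : Par N e)
    (hc : CoreAx N e c) (hs : ChAx N c s) (hPb : StPb) {b : Bool} {u : V}
    {h : GH V Q (Kd N Λ B FB)} {x : TV N e c s} {a : Λ}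
    (h2 : x.1 = .nat b u h) (h3 : tL N e c s x = {Kd.kap a}) :
    (∃ z, h = .core z ∧ c.lb z = a) ∨ ∃ z l, h = .fan z l := by
  unfold tL at h3
  rw [h2] at h3
  exact labK hp hc hs hPb h3

private theorem portCore {N e : ℕ} {c : Core V Q Λ B FB} {s : Ch V Q} {M : SimpleGraph W}
    {lm : W → Finset (Kd N Λ B FB)} (hTok : StTok) (hPb : StPb) (hR : StRg) (hM : StMinj)
    (hC : StCls) (hI : StInner) (hRt : StRoot) (hx : Cx N e c s M lm) (u : V) (g : W)
    (hg : Pt N e c s M lm (.nat true u (.core u)) g) (w : V) (hw : c.G.Adj u w) (g' : W)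
    (hgg : M.Adj g g') (hl : lm g' = {Kd.kap (c.lb w)}) :
    Pt N e c s M lm (.nat true u (.core w)) g' ∨
      ∃ u', c.lb u' = c.lb w ∧ Pt N e c s M lm (.nat true u' (.core u')) g' := by
  have hp := hx.par
  have hc := hx.ax
  have hs := hx.ch
  have hpar := hp
  unfold Par at hpar
  have hlg : lm g = {Kd.kap (c.lb u)} := by
    obtain ⟨h0, h1⟩ := hg
    exact (hM.nbr N e c s M lm hx ⟨_, h0⟩ g ⟨h0, h1⟩).1
  have hnr := notRgRoot hC hx hg
  obtain ⟨x, y, h1, h2, h3, h4⟩ := ptn hM hx hgg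
  rw [hl] at h2
  rw [hlg] at h4
  rcases clsP hC hp hc hs x (by rw [h2]; exact plOne) with h | ⟨u2, w2, h5, h⟩ | ⟨u2, q, h5, h⟩ |
    ⟨u2, h⟩ | ⟨u2, h⟩ | ⟨u2, j, h⟩ | ⟨u2, l, h⟩ | ⟨u2, q, j, h5, h⟩
  · exact absurd (star hR hx hg h1 hgg h).choose_spec.2.1 hnr
  · -- boundary
    have hlb : c.lb w2 = c.lb w := by
      rcases kNot hp hc hs hPb h h2 with ⟨z, h6, h7⟩ | ⟨z, l, h6⟩
      · rw [GH.core.injEq] at h6; rw [h6, h7]
      · cases h6
    rcases nbK hp hc hs hPb h3 h h4 with ⟨z, h6, h7, h8⟩ | ⟨z, l', _, h7⟩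
    · rcases h7 with ⟨h9, h10⟩ | ⟨h9, h10⟩
      · -- the parent
        rw [pbOne hp hc hs hPb h5, GH.core.injEq] at h10
        subst h10
        rw [h] at h1
        left
        have h11 := hI N e c s M lm hx z (.core w2) g' g (Or.inl ⟨w2, h5, rfl⟩) h1 hgg.symm
          (by rw [hlg, h8])
        have h12 := hRt N e c s M lm hx u g hg _ h11
        rw [TH.nat.injEq] at h12
        obtain ⟨_, rfl, _⟩ := h12
        have h13 : w2 = w := by
          refine bsEq hc (u := z) ?_ ?_ (by rw [hlb])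
          · rw [SimpleGraph.dist_eq_one_iff_adj.2 h5]; omega
          · rw [SimpleGraph.dist_eq_one_iff_adj.2 hw]; omega
        rw [← h13]
        exact h1
      · -- a child
        exfalso
        have hzok := y.2
        have hlev : lev N c u2 (.core z : GH V Q (Kd N Λ B FB)) = 2 := by
          rw [h6] at hzok
          have h11 : c.G.dist u2 z ≠ 0 := by
            intro h12
            apply h9
            rw [(hc.conn.preconnected u2 z).dist_eq_zero_iff.1 h12]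
          have h12 := (hTok.ok N e c s hp hc hs _ hzok (by
            simp only [tlev, lev, GH.own, GH.ht]; omega)).2.1
          simp only [tpar, tlev] at h12
          rw [← h10] at h12
          have h13 : lev N c u2 (.core w2 : GH V Q (Kd N Λ B FB)) = 1 := by
            simp only [lev, GH.own, GH.ht]
            rw [SimpleGraph.dist_eq_one_iff_adj.2 h5]
          omega
        have hst : Rg N e c s (2 * N - 1) y.1 := by
          rw [h6] at hzok ⊢
          exact hC.strong N e c s hp hc hs _ _ _ hzok (Or.inl ⟨rfl, by omega, by simp, by simp⟩)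
        have hxr : Rg N e c s (2 * N) x.1 := by
          refine (hC.rg N e c s hp hc hs x.1 x.2 (Or.inl ⟨u2, w2, h5, h⟩)).1
        have h11 := star3 hR hM hx h1 hxr hgg.symm h3 (by rw [h4, hlg]) hst
        have h12 := hR.uniq' N e c s M lm hx _ _ g (rgMono (by omega) hst) h11 hg
        exact hnr (h12 ▸ rgMono (by omega) hst)
    · cases fanNb (NAsymm h7)
  · rcases kNot hp hc hs hPb h h2 with ⟨z, h6, _⟩ | ⟨z, l, h6⟩ <;> cases h6
  · -- the centre of a piece `false`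
    exfalso
    rcases nbK hp hc hs hPb h3 h h4 with ⟨z, h6, h7, h8⟩ | ⟨z, l', _, h7⟩
    · rcases h7 with ⟨h9, h10⟩ | ⟨h9, h10⟩
      · exact h9 rfl
      · have hzok := y.2
        have hlev : 1 ≤ lev N c u2 (.core z : GH V Q (Kd N Λ B FB)) := by
          simp only [lev, GH.own, GH.ht]
          have h11 : c.G.dist u2 z ≠ 0 := by
            intro h12
            apply h9
            rw [(hc.conn.preconnected u2 z).dist_eq_zero_iff.1 h12]
          omega
        have hst : Rg N e c s (2 * N - 1) y.1 := by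
          rw [h6] at hzok ⊢
          exact hC.strong N e c s hp hc hs _ _ _ hzok (Or.inr ⟨rfl, hlev, by simp⟩)
        have hxr : Rg N e c s (2 * N) x.1 := by
          refine (hC.rg N e c s hp hc hs x.1 x.2 (Or.inr (Or.inr (Or.inl ⟨u2, h⟩)))).1
        have h11 := star3 hR hM hx h1 hxr hgg.symm h3 (by rw [h4, hlg]) hst
        have h12 := hR.uniq' N e c s M lm hx _ _ g (rgMono (by omega) hst) h11 hg
        exact hnr (h12 ▸ rgMono (by omega) hst)
    · cases fanNb (NAsymm h7)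
  · -- a centre of a piece `true`
    right
    rcases kNot hp hc hs hPb h h2 with ⟨z, h6, h7⟩ | ⟨z, l, h6⟩
    · rw [GH.core.injEq] at h6
      subst h6
      rw [h] at h1
      exact ⟨u2, h7, h1⟩
    · cases h6
  · rcases kNot hp hc hs hPb h h2 with ⟨z, h6, _⟩ | ⟨z, l, h6⟩ <;> cases h6
  · exact (fanNo hp hc hs hPb h3 h h4).elim
  · rcases kNot hp hc hs hPb h h2 with ⟨z, h6, _⟩ | ⟨z, l, h6⟩ <;> cases h6

/-- a label of a ghost at position `1` -/
private theorem gNot {N e : ℕ} {c : Core V Q Λ B FB} {s : Ch V Q} (hp : Par N e) {b : Bool} {u : V}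
    {h : GH V Q (Kd N Λ B FB)} {x : TV N e c s} {q : Q}
    (h2 : x.1 = .nat b u h) (h3 : tL N e c s x = gl N e c (.gho q 1)) :
    (∃ q', h = .gho q' 1 ∧ c.fl q' = c.fl q ∧ c.bs (c.lb (c.ow q')) = c.bs (c.lb (c.ow q))) ∨
      ∃ z l, h = .fan z l := by
  have hok := x.2
  unfold tL at h3
  rw [h2] at h3 hok
  exact labG hp hok.2.1 h3

/-- a label of a trunk at position `1` -/
private theorem tNot {N e : ℕ} {c : Core V Q Λ B FB} {s : Ch V Q} (hp : Par N e) {b : Bool} {u : V}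
    {h : GH V Q (Kd N Λ B FB)} {x : TV N e c s} {u' : V}
    (h2 : x.1 = .nat b u h) (h3 : tL N e c s x = gl N e c (.tru u' 1)) :
    (∃ z, h = .tru z 1 ∧ c.lb z = c.lb u') ∨ ∃ z l, h = .fan z l := by
  have hok := x.2
  unfold tL at h3
  rw [h2] at h3 hok
  exact labT hp hok.2.1 h3

private theorem plG {N e : ℕ} {c : Core V Q Λ B FB} (hp : Par N e) {q : Q} :
    ∀ κ ∈ gl N e c (.gho q 1 : GH V Q (Kd N Λ B FB)), PlK κ := by
  intro κ hκ
  exact glPl (by simp) hκ

private theorem plT {N e : ℕ} {c : Core V Q Λ B FB} {u : V} :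
    ∀ κ ∈ gl N e c (.tru u 1 : GH V Q (Kd N Λ B FB)), PlK κ := by
  intro κ hκ
  exact glPl (by simp) hκ

/-- the neighbour with label `{kap a}` of a ghost at position `1` -/
private theorem ghoOne {N e : ℕ} {c : Core V Q Λ B FB} {s : Ch V Q} (hp : Par N e)
    (hc : CoreAx N e c) (hs : ChAx N c s) (hPb : StPb) {b : Bool} {u : V} {q : Q}
    {x y : TV N e c s} {a : Λ} (h1 : (TG N e c s).Adj x y)
    (h2 : x.1 = .nat b u (.gho q 1)) (h3 : tL N e c s y = {Kd.kap a}) :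
    c.lb (c.ow q) = a := by
  have hpar := hp
  unfold Par at hpar
  rcases nbK hp hc hs hPb h1 h2 h3 with ⟨z, _, h4, h5⟩ | ⟨z, l', _, h4⟩
  · rcases h4 with ⟨_, h6⟩ | ⟨_, h6⟩
    · simp only [pb, GH.dp] at h6
      rw [if_pos le_rfl, GH.core.injEq] at h6
      rw [← h6, h5]
    · exfalso
      simp only [pb] at h6
      split_ifs at h6
      rw [GH.gho.injEq] at h6
      omega
  · cases fanNb (NAsymm h4)

private theorem portGho {N e : ℕ} {c : Core V Q Λ B FB} {s : Ch V Q} {M : SimpleGraph W}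
    {lm : W → Finset (Kd N Λ B FB)} (hPb : StPb) (hR : StRg) (hM : StMinj)
    (hC : StCls) (hI : StInner) (hRt : StRoot) (hx : Cx N e c s M lm) (u : V) (g : W)
    (hg : Pt N e c s M lm (.nat true u (.core u)) g) (q : Q) (hq : c.ow q = u) (g' : W)
    (hgg : M.Adj g g') (hl : lm g' = gl N e c (.gho q 1)) :
    Pt N e c s M lm (.nat true u (.gho q 1)) g' ∨
      ∃ q', c.lb (c.ow q') = c.lb u ∧ c.fl q' = c.fl q ∧
        Pt N e c s M lm (.nat false (c.ow q') (.gho q' 1)) g' := by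
  have hp := hx.par
  have hc := hx.ax
  have hs := hx.ch
  have hpar := hp
  unfold Par at hpar
  have hlg : lm g = {Kd.kap (c.lb u)} := by
    obtain ⟨h0, h1⟩ := hg
    exact (hM.nbr N e c s M lm hx ⟨_, h0⟩ g ⟨h0, h1⟩).1
  have hnr := notRgRoot hC hx hg
  obtain ⟨x, y, h1, h2, h3, h4⟩ := ptn hM hx hgg
  rw [hl] at h2
  rw [hlg] at h4
  rcases clsP hC hp hc hs x (by rw [h2]; exact plG hp) with h | ⟨u2, w2, h5, h⟩ | ⟨u2, q2, h5, h⟩ |
    ⟨u2, h⟩ | ⟨u2, h⟩ | ⟨u2, j, h⟩ | ⟨u2, l, h⟩ | ⟨u2, q2, j, h5, h⟩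
  · exact absurd (star hR hx hg h1 hgg h).choose_spec.2.1 hnr
  · rcases gNot hp h h2 with ⟨z, h6, _⟩ | ⟨z, l, h6⟩ <;> cases h6
  · left
    have hfl : c.fl q2 = c.fl q := by
      rcases gNot hp h h2 with ⟨z, h6, h7, _⟩ | ⟨z, l, h6⟩
      · rw [GH.gho.injEq] at h6; rw [h6.1, h7]
      · cases h6
    have hlb := ghoOne hp hc hs hPb h3 h h4
    rw [h] at h1
    subst h5
    have h11 := hI N e c s M lm hx (c.ow q2) (.gho q2 1) g' g (Or.inr ⟨q2, rfl, rfl⟩) h1 hgg.symm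
      (by rw [hlg, hlb])
    have h12 := hRt N e c s M lm hx u g hg _ h11
    rw [TH.nat.injEq] at h12
    have h13 : q2 = q := hc.k8 q2 q (by rw [h12.2.1, hq]) hfl
    subst h13
    rw [← h12.2.1]
    exact h1
  · rcases gNot hp h h2 with ⟨z, h6, _⟩ | ⟨z, l, h6⟩ <;> cases h6
  · rcases gNot hp h h2 with ⟨z, h6, _⟩ | ⟨z, l, h6⟩ <;> cases h6
  · rcases gNot hp h h2 with ⟨z, h6, _⟩ | ⟨z, l, h6⟩ <;> cases h6
  · exact (fanNo hp hc hs hPb h3 h h4).elim
  · right
    rcases gNot hp h h2 with ⟨q3, h6, h7, _⟩ | ⟨z, l, h6⟩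
    · rw [GH.gho.injEq] at h6
      obtain ⟨rfl, rfl⟩ := h6
      have hlb := ghoOne hp hc hs hPb h3 h h4
      rw [h, ← h5] at h1
      exact ⟨q2, hlb, h7, h1⟩
    · cases h6

private theorem portTru {N e : ℕ} {c : Core V Q Λ B FB} {s : Ch V Q} {M : SimpleGraph W}
    {lm : W → Finset (Kd N Λ B FB)} (hPb : StPb) (hR : StRg) (hM : StMinj)
    (hC : StCls) (hx : Cx N e c s M lm) (u : V) (g : W)
    (hg : Pt N e c s M lm (.nat true u (.core u)) g) (g' : W)
    (hgg : M.Adj g g') (hl : lm g' = gl N e c (.tru u 1)) :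
    ∃ u', c.lb u' = c.lb u ∧ Pt N e c s M lm (.nat true u' (.tru u' 1)) g' := by
  have hp := hx.par
  have hc := hx.ax
  have hs := hx.ch
  have hlg : lm g = {Kd.kap (c.lb u)} := by
    obtain ⟨h0, h1⟩ := hg
    exact (hM.nbr N e c s M lm hx ⟨_, h0⟩ g ⟨h0, h1⟩).1
  have hnr := notRgRoot hC hx hg
  obtain ⟨x, y, h1, h2, h3, h4⟩ := ptn hM hx hgg
  rw [hl] at h2
  rw [hlg] at h4
  rcases clsP hC hp hc hs x (by rw [h2]; exact plT) with h | ⟨u2, w2, h5, h⟩ | ⟨u2, q2, h5, h⟩ |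
    ⟨u2, h⟩ | ⟨u2, h⟩ | ⟨u2, j, h⟩ | ⟨u2, l, h⟩ | ⟨u2, q2, j, h5, h⟩
  · exact absurd (star hR hx hg h1 hgg h).choose_spec.2.1 hnr
  · rcases tNot hp h h2 with ⟨z, h6, _⟩ | ⟨z, l, h6⟩ <;> cases h6
  · rcases tNot hp h h2 with ⟨z, h6, _⟩ | ⟨z, l, h6⟩ <;> cases h6
  · rcases tNot hp h h2 with ⟨z, h6, _⟩ | ⟨z, l, h6⟩ <;> cases h6
  · rcases tNot hp h h2 with ⟨z, h6, _⟩ | ⟨z, l, h6⟩ <;> cases h6
  · rcases tNot hp h h2 with ⟨z, h6, h7⟩ | ⟨z, l, h6⟩
    · rw [GH.tru.injEq] at h6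
      obtain ⟨rfl, rfl⟩ := h6
      rw [h] at h1
      exact ⟨u2, h7, h1⟩
    · cases h6
  · exact (fanNo hp hc hs hPb h3 h h4).elim
  · rcases tNot hp h h2 with ⟨z, h6, _⟩ | ⟨z, l, h6⟩ <;> cases h6

private theorem portSp {N e : ℕ} {c : Core V Q Λ B FB} {s : Ch V Q} {M : SimpleGraph W}
    {lm : W → Finset (Kd N Λ B FB)} (hPb : StPb) (hR : StRg) (hM : StMinj)
    (hC : StCls) (hG : StGlue1) (hx : Cx N e c s M lm) (u : V) (g : W)
    (hg : Pt N e c s M lm (.nat false u (.core u)) g) (q : Q) (hq : c.ow q = u) (g' : W)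
    (hgg : M.Adj g g') (hl : lm g' = gl N e c (.gho q 1)) :
    ∃ q', c.lb (c.ow q') = c.lb u ∧ c.fl q' = c.fl q ∧
      Pt N e c s M lm (.nat false (c.ow q') (.gho q' 1)) g' := by
  have hp := hx.par
  have hc := hx.ax
  have hs := hx.ch
  have hpar := hp
  unfold Par at hpar
  have hlg : lm g = {Kd.kap (c.lb u)} := by
    obtain ⟨h0, h1⟩ := hg
    exact (hM.nbr N e c s M lm hx ⟨_, h0⟩ g ⟨h0, h1⟩).1
  obtain ⟨x, y, h1, h2, h3, h4⟩ := ptn hM hx hgg
  rw [hl] at h2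
  rw [hlg] at h4
  rcases clsP hC hp hc hs x (by rw [h2]; exact plG hp) with h | ⟨u2, w2, h5, h⟩ | ⟨u2, q2, h5, h⟩ |
    ⟨u2, h⟩ | ⟨u2, h⟩ | ⟨u2, j, h⟩ | ⟨u2, l, h⟩ | ⟨u2, q2, j, h5, h⟩
  · -- strong
    exfalso
    obtain ⟨x', h6, _, y', h7, h8⟩ := star hR hx hg h1 hgg h
    have h9 : x' = x := Subtype.ext h6
    subst h9
    rcases adjNat h8.symm h7 with ⟨k, h10, h11⟩ | h10
    · rcases gNot hp h10 h2 with ⟨q', rfl, _⟩ | ⟨z, l, rfl⟩
      · have h12 : c.ow q' = u := by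
          rcases h11 with ⟨h12, _⟩ | ⟨_, h12⟩
          · exact absurd rfl h12
          · simp only [pb, GH.dp] at h12
            rw [if_pos le_rfl, GH.core.injEq] at h12
            exact h12.symm
        refine hC.free N e c s hp hc hs x'.1 x'.2 ?_ (rgMono (by omega) h)
        exact Or.inr (Or.inr (Or.inr (Or.inr ⟨u, q', 1, h12, h10⟩)))
      · cases fanNb (NAsymm h11)
    · have hok := x'.2
      unfold tL at h2
      rw [h10] at h2 hok
      have h12 := (capFg (s := s) (b := false) (u := u) hok.2.1 0).2 (by simp)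
      rw [h2] at h12
      exact plG hp _ h12
  · rcases gNot hp h h2 with ⟨z, h6, _⟩ | ⟨z, l, h6⟩ <;> cases h6
  · exfalso
    have hlb := ghoOne hp hc hs hPb h3 h h4
    rw [h] at h1
    subst h5
    exact hG N e c s M lm hx q2 u g' g h1 hg hgg.symm hlb.symm
  · rcases gNot hp h h2 with ⟨z, h6, _⟩ | ⟨z, l, h6⟩ <;> cases h6
  · rcases gNot hp h h2 with ⟨z, h6, _⟩ | ⟨z, l, h6⟩ <;> cases h6
  · rcases gNot hp h h2 with ⟨z, h6, _⟩ | ⟨z, l, h6⟩ <;> cases h6
  · exact (fanNo hp hc hs hPb h3 h h4).elim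
  · rcases gNot hp h h2 with ⟨q3, h6, h7, _⟩ | ⟨z, l, h6⟩
    · rw [GH.gho.injEq] at h6
      obtain ⟨rfl, rfl⟩ := h6
      have hlb := ghoOne hp hc hs hPb h3 h h4
      rw [h, ← h5] at h1
      exact ⟨q2, hlb, h7, h1⟩
    · cases h6

end

/-- Module Port. -/
theorem pPort (hTok : StTok) (hPb : StPb) (hR : StRg) (hM : StMinj) (hC : StCls)
    (hI : StInner) (hRt : StRoot) (hG : StGlue1) : StPort where
  core := by
    intro V Q Λ B FB W _ _ _ N e c s M lm hx u g hg w hw g' hgg hl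
    exact portCore hTok hPb hR hM hC hI hRt hx u g hg w hw g' hgg hl
  gho := by
    intro V Q Λ B FB W _ _ _ N e c s M lm hx u g hg q hq g' hgg hl
    exact portGho hPb hR hM hC hI hRt hx u g hg q hq g' hgg hl
  tru := by
    intro V Q Λ B FB W _ _ _ N e c s M lm hx u g hg g' hgg hl
    exact portTru hPb hR hM hC hx u g hg g' hgg hl
  sp := by
    intro V Q Λ B FB W _ _ _ N e c s M lm hx u g hg q hq g' hgg hl
    exact portSp hPb hR hM hC hG hx u g hg q hq g' hgg hl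

end Pool.Agent.Helper65.LD
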