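import Pool.Agent.Helper2.LD.St4

/-!
# LD project, part B1: labels in the tree skeleton (module Tinj)
-/

set_option autoImplicit false

namespace Pool.Agent.Helper65.LD

open Pool.Agent.Helper2.LD

section

variable {V Q Λ B FB : Type}

private theorem piK_inj {N : ℕ} {j j' : ℕ} (h1 : j ≤ 2 * N) (h2 : j' ≤ 2 * N)
    (h : (piK N j : Kd N Λ B FB) = piK N j') : j = j' := by
  unfold piK at h
  rw [Kd.pi.injEq, Fin.mk.injEq, Nat.mod_eq_of_lt (by omega), Nat.mod_eq_of_lt (by omega)] at h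
  exact h

private theorem bsEq {N e : ℕ} {c : Core V Q Λ B FB} (hc : CoreAx N e c) {u z z' : V}
    (h1 : c.G.dist u z ≤ 2 * N) (h2 : c.G.dist u z' ≤ 2 * N)
    (h : c.bs (c.lb z) = c.bs (c.lb z')) : z = z' := by
  refine hc.k5 z z' ?_ h
  have h3 := hc.conn.dist_triangle (u := z) (v := u) (w := z')
  rw [SimpleGraph.dist_comm] at h1
  have h4 : c.G.edist z z' = (c.G.dist z z' : ℕ∞) :=
    (SimpleGraph.Reachable.coe_dist_eq_edist (hc.conn.preconnected z z')).symm
  rw [h4]
  exact_mod_cast (by omega : c.G.dist z z' ≤ 4 * N + 2)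

private theorem adjNe {N e : ℕ} {c : Core V Q Λ B FB} (hc : CoreAx N e c) {z z' : V}
    (h : z ≠ z') (h1 : c.G.dist z z' ≤ 2) : c.lb z ≠ c.lb z' := by
  intro h2
  refine h (hc.k5 z z' ?_ (by rw [h2]))
  have h4 : c.G.edist z z' = (c.G.dist z z' : ℕ∞) :=
    (SimpleGraph.Reachable.coe_dist_eq_edist (hc.conn.preconnected z z')).symm
  rw [h4]
  exact_mod_cast (by omega : c.G.dist z z' ≤ 4 * N + 2)

/-- the two kinds of the middle of a ghost -/
private theorem midNe {N e : ℕ} {c : Core V Q Λ B FB} {s : Ch V Q} (hp : Par N e)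
    (hc : CoreAx N e c) (hs : ChAx N c s) (hPb : StPb) (q : Q) :
    c.lb (c.ow ((c.nx^[e]) q)) ≠ c.lb (c.ow ((c.nx^[3 * e]) q)) := by
  obtain ⟨h1, h2, h3, h4, h5⟩ :=
    (hPb (K := Unit) N e c s hp hc hs true (c.ow q)).2.2 q rfl
  intro h6
  refine h2 (bsEq hc (u := c.ow q) ?_ ?_ (by rw [h6]))
  · rw [h4]; unfold Par at hp; omega
  · rw [h5]; unfold Par at hp; omega

/-- plain kinds: neither types nor flags -/
private def PlK {N : ℕ} : Kd N Λ B FB → Prop
  | .ty _ _ => False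
  | .fg _ => False
  | _ => True

private theorem glPl {N e : ℕ} {c : Core V Q Λ B FB} {h : GH V Q (Kd N Λ B FB)}
    (hok : ∀ z l, h = .fan z l → l ∈ NLb N e c) {κ : Kd N Λ B FB} (hκ : κ ∈ gl N e c h) :
    PlK κ := by
  have key : ∀ h : GH V Q (Kd N Λ B FB), (∀ z l, h ≠ .fan z l) → κ ∈ gl N e c h → PlK κ := by
    intro h hf hκ
    cases h with
    | core x => simp only [gl, Finset.mem_singleton] at hκ; subst hκ; trivial
    | gho q j =>
      simp only [gl] at hκ
      split_ifs at hκ <;> simp only [Finset.mem_insert, Finset.mem_singleton] at hκ <;>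
        rcases hκ with rfl | rfl <;> trivial
    | tru x j =>
      simp only [gl, Finset.mem_insert, Finset.mem_singleton] at hκ
      rcases hκ with rfl | rfl <;> trivial
    | fan x l => exact absurd rfl (hf x l)
  by_cases hf : ∃ z l, h = .fan z l
  · obtain ⟨z, l, rfl⟩ := hf
    have h1 := hok z l rfl
    have h2 : κ ∈ l := hκ
    rcases h1 with ⟨x, h3⟩ | ⟨q, j, _, _, h3⟩ | ⟨x, j, _, _, h3⟩
    · exact key (.core x) (by simp) (h3 ▸ h2)
    · exact key (.gho q j) (by simp) (h3 ▸ h2)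
    · exact key (.tru x j) (by simp) (h3 ▸ h2)
  · push Not at hf
    exact key h hf hκ

private theorem pbNF {N e : ℕ} {c : Core V Q Λ B FB} {s : Ch V Q} {K : Type} (b : Bool) (u : V)
    (h : GH V Q K) : ∀ z l, pb N e c s b u h ≠ .fan z l := by
  intro z l
  cases h with
  | core x => simp only [pb]; split_ifs <;> simp
  | gho q j => simp only [pb, GH.dp]; split_ifs <;> simp
  | tru x j => simp only [pb, GH.dp]; split_ifs <;> simp
  | fan x l => simp [pb, GH.dp]

private theorem okPl {N e : ℕ} {c : Core V Q Λ B FB} {h : GH V Q (Kd N Λ B FB)}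
    (hok : okG N e c h) {κ : Kd N Λ B FB} (hκ : κ ∈ gl N e c h) : PlK κ := by
  refine glPl ?_ hκ
  rintro z l rfl
  exact hok.1

private theorem capPl {N e : ℕ} {c : Core V Q Λ B FB} {s : Ch V Q} {b : Bool} {u : V}
    {h : GH V Q (Kd N Λ B FB)} (hok : okG N e c h) {κ : Kd N Λ B FB}
    (hκ : κ ∈ gl N e c h ∨ κ ∈ gl N e c (pb N e c s b u h)) : PlK κ := by
  rcases hκ with hκ | hκ
  · exact okPl hok hκ
  · exact glPl (fun z l h1 => absurd h1 (pbNF b u h z l)) hκ

end

section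

variable {V Q Λ B FB : Type} [Fintype Λ] [Fintype B] [Fintype FB]

private theorem memTyl {N : ℕ} {τ : Set (Λ × ℕ)} (κ : Kd N Λ B FB) :
    κ ∈ tyl (B := B) (FB := FB) N τ ↔ ∃ (l : Λ) (d : Fin (2 * N)), κ = Kd.ty l d ∧ (l, (d : ℕ)) ∈ τ := by
  simp [tyl]

private theorem tylTy {N : ℕ} {τ : Set (Λ × ℕ)} (l : Λ) (d : Fin (2 * N)) :
    (Kd.ty l d : Kd N Λ B FB) ∈ tyl (B := B) (FB := FB) N τ ↔ (l, (d : ℕ)) ∈ τ := by
  rw [memTyl]
  constructor
  · rintro ⟨l', d', h1, h2⟩
    rw [Kd.ty.injEq] at h1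
    obtain ⟨rfl, rfl⟩ := h1
    exact h2
  · intro h
    exact ⟨l, d, rfl, h⟩

private theorem tylPl {N : ℕ} {τ : Set (Λ × ℕ)} (κ : Kd N Λ B FB) (h : PlK κ) :
    κ ∉ tyl (B := B) (FB := FB) N τ := by
  rw [memTyl]
  rintro ⟨l', d', rfl, h2⟩
  exact h

private theorem tylFg {N : ℕ} {τ : Set (Λ × ℕ)} (i : Fin 4) :
    (Kd.fg i : Kd N Λ B FB) ∉ tyl (B := B) (FB := FB) N τ := by
  rw [memTyl]
  rintro ⟨l', d', h1, h2⟩
  cases h1

omit [Fintype Λ] [Fintype B] [Fintype FB] in
private theorem TSeq {N : ℕ} {c : Core V Q Λ B FB} {u u' : V}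
    (h : ∀ (l : Λ) (d : Fin (2 * N)), (l, (d : ℕ)) ∈ TS N c u ↔ (l, (d : ℕ)) ∈ TS N c u') :
    TS N c u = TS N c u' := by
  ext ⟨l, d⟩
  constructor
  · intro h1
    exact (h l ⟨d, h1.1⟩).1 h1
  · intro h1
    exact (h l ⟨d, h1.1⟩).2 h1

/-- kinds of a cap -/
private theorem capTy {N e : ℕ} {c : Core V Q Λ B FB} {s : Ch V Q} {b : Bool} {u : V}
    {h : GH V Q (Kd N Λ B FB)} (hok : okG N e c h) (l : Λ) (d : Fin (2 * N)) :
    (Kd.ty l d : Kd N Λ B FB) ∈ tl N e c s (.cap b u h) ↔ (l, (d : ℕ)) ∈ TS N c u := by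
  simp only [tl, Finset.mem_union, Finset.mem_singleton, tylTy]
  constructor
  · rintro ((h1 | h1) | h1)
    · exact (capPl (s := s) (b := b) (u := u) hok h1).elim
    · exact h1
    · cases h1
  · intro h1; exact Or.inl (Or.inr h1)

private theorem capFg {N e : ℕ} {c : Core V Q Λ B FB} {s : Ch V Q} {b : Bool} {u : V}
    {h : GH V Q (Kd N Λ B FB)} (hok : okG N e c h) (i : Fin 4) :
    (Kd.fg i : Kd N Λ B FB) ∈ tl N e c s (.cap b u h) ↔ i = (if b = true then 1 else 0) := by
  simp only [tl, Finset.mem_union, Finset.mem_singleton, Kd.fg.injEq]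
  constructor
  · rintro ((h1 | h1) | h1)
    · exact (capPl (s := s) (b := b) (u := u) hok h1).elim
    · exact absurd h1 (tylFg i)
    · exact h1
  · intro h1; exact Or.inr h1

private theorem capP {N e : ℕ} {c : Core V Q Λ B FB} {s : Ch V Q} {b : Bool} {u : V}
    {h : GH V Q (Kd N Λ B FB)} (κ : Kd N Λ B FB) (hκ : PlK κ) :
    κ ∈ tl N e c s (.cap b u h) ↔ (κ ∈ gl N e c h ∨ κ ∈ gl N e c (pb N e c s b u h)) := by
  simp only [tl, Finset.mem_union, Finset.mem_singleton]
  constructor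
  · rintro ((h1 | h1) | h1)
    · exact h1
    · exact absurd h1 (tylPl κ hκ)
    · subst h1; exact hκ.elim
  · intro h1; exact Or.inl (Or.inl h1)

private theorem pthTy {N e : ℕ} {c : Core V Q Λ B FB} {s : Ch V Q} {b : Bool} {u : V} {j : ℕ}
    (l : Λ) (d : Fin (2 * N)) :
    (Kd.ty l d : Kd N Λ B FB) ∈ tl N e c s (.pth b u j) ↔ (l, (d : ℕ)) ∈ TS N c u := by
  simp [tl, tylTy, piK]

private theorem pthFg {N e : ℕ} {c : Core V Q Λ B FB} {s : Ch V Q} {b : Bool} {u : V} {j : ℕ}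
    (i : Fin 4) :
    (Kd.fg i : Kd N Λ B FB) ∈ tl N e c s (.pth b u j) ↔
      i = 2 ∨ i = (if b = true then 1 else 0) := by
  simp [tl, tylFg, piK]

private theorem pthP {N e : ℕ} {c : Core V Q Λ B FB} {s : Ch V Q} {b : Bool} {u : V} {j : ℕ}
    (κ : Kd N Λ B FB) (hκ : PlK κ) :
    κ ∈ tl N e c s (.pth b u j) ↔ κ = piK N j := by
  simp only [tl, Finset.mem_union, Finset.mem_singleton, Finset.mem_insert]
  constructor
  · rintro ((h1 | h1 | h1) | h1)
    · exact h1
    · subst h1; exact hκ.elim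
    · subst h1; exact hκ.elim
    · exact absurd h1 (tylPl κ hκ)
  · intro h1; exact Or.inl (Or.inl h1)

private theorem tylCard {N e : ℕ} {c : Core V Q Λ B FB} {s : Ch V Q} (hp : Par N e)
    (hc : CoreAx N e c) (hs : ChAx N c s) (u : V) :
    6 ≤ (tyl (B := B) (FB := FB) N (TS N c u)).card := by
  classical
  unfold Par at hp
  have h1 : (Finset.univ : Finset (Fin 6)).card ≤ (tyl (B := B) (FB := FB) N (TS N c u)).card := by
    refine Finset.card_le_card_of_injOn
      (fun j => Kd.ty (c.lb (c.ow ((c.nx^[j.1]) (s.q0 u)))) ⟨j.1, by have := j.2; omega⟩) ?_ ?_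
    · intro j _
      have := j.2
      refine (tylTy _ _).2 ⟨by dsimp only; omega, _, rfl, ?_⟩
      have h2 := hc.iso (s.q0 u) j.1 (by omega)
      rw [hs.q0 u] at h2
      dsimp only
      rw [SimpleGraph.dist, h2]; rfl
    · intro j _ j' _ h3
      simp only [Kd.ty.injEq, Fin.mk.injEq] at h3
      exact Fin.ext h3.2
  simpa using h1

omit [Fintype Λ] [Fintype B] [Fintype FB] in
private theorem glCard {N e : ℕ} {c : Core V Q Λ B FB} {h : GH V Q (Kd N Λ B FB)}
    (hok : okG N e c h) : (gl N e c h).card ≤ 2 := by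
  classical
  have key : ∀ h : GH V Q (Kd N Λ B FB), (∀ z l, h ≠ .fan z l) → (gl N e c h).card ≤ 2 := by
    intro h hf
    cases h with
    | core x => simp [gl]
    | gho q j =>
      simp only [gl]
      split_ifs
      · exact Finset.card_le_two
      · exact Finset.card_le_two
    | tru x j => exact Finset.card_le_two
    | fan x l => exact absurd rfl (hf x l)
  by_cases hf : ∃ z l, h = .fan z l
  · obtain ⟨z, l, rfl⟩ := hf
    change l.card ≤ 2
    rcases hok.1 with ⟨x, h3⟩ | ⟨q, j, _, _, h3⟩ | ⟨x, j, _, _, h3⟩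
    · rw [h3]; exact key (.core x) (by simp)
    · rw [h3]; exact key (.gho q j) (by simp)
    · rw [h3]; exact key (.tru x j) (by simp)
  · push Not at hf
    exact key h hf

private theorem hubT {N e : ℕ} {c : Core V Q Λ B FB} {s : Ch V Q} (hp : Par N e)
    (hc : CoreAx N e c) (hs : ChAx N c s) (x : TH V Q (Kd N Λ B FB)) (hx : okT N e c s x) :
    HubL (tl N e c s x) := by
  have h2 : ∀ k : ℕ, k ≤ 2 → k ≠ 3 ∧ k ≠ 4 ∧ k ≠ 5 := by omega
  have h6 : ∀ k : ℕ, 6 ≤ k → k ≠ 3 ∧ k ≠ 4 ∧ k ≠ 5 := by omega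
  cases x with
  | nat b u h => exact h2 _ (glCard hx.2.1)
  | cap b u h =>
    refine h6 _ ((tylCard hp hc hs u).trans (Finset.card_le_card ?_))
    intro κ hκ
    simp only [tl, Finset.mem_union, Finset.mem_singleton]
    exact Or.inl (Or.inr hκ)
  | pth b u j =>
    refine h6 _ ((tylCard hp hc hs u).trans (Finset.card_le_card ?_))
    intro κ hκ
    simp only [tl, Finset.mem_union]
    exact Or.inr hκ
  | rt =>
    refine h2 _ ?_
    simp [tl]

end

section

variable {V Q Λ B FB : Type}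

private theorem ownLe {N e : ℕ} {c : Core V Q Λ B FB} {s : Ch V Q} {b : Bool} {u : V}
    {h : GH V Q (Kd N Λ B FB)} (hok : okT N e c s (.nat b u h)) :
    c.G.dist u (h.own c) ≤ 2 * N := by
  rcases hok.2.2 with h1 | ⟨_, q, h1, h2⟩
  · unfold lev at h1
    have : dep N b ≤ 2 * N := by unfold dep; split_ifs <;> omega
    omega
  · subst h2
    change c.G.dist u (c.ow q) ≤ _
    rw [h1]; simp

/-- fans in pieces are own fans of `b = true` -/
private theorem fanOwn {N e : ℕ} {c : Core V Q Λ B FB} {s : Ch V Q} (hp : Par N e)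
    (hc : CoreAx N e c) {b : Bool} {u z : V}
    {l : Finset (Kd N Λ B FB)} (hok : okT N e c s (.nat b u (.fan z l))) : b = true ∧ z = u := by
  rcases hok.2.2 with h1 | ⟨_, q, h1, h2⟩
  · unfold lev at h1
    simp only [GH.own, GH.ht] at h1
    unfold Par at hp
    cases b with
    | false =>
      simp only [dep] at h1
      norm_num at h1
      omega
    | true =>
      simp only [dep, if_true] at h1
      refine ⟨rfl, ?_⟩
      have h3 : c.G.dist u z = 0 := by omega
      exact ((hc.conn.preconnected u z).dist_eq_zero_iff.1 h3).symm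
  · cases h2

private theorem mCore {N e : ℕ} {c : Core V Q Λ B FB} {z : V} (κ : Kd N Λ B FB) :
    κ ∈ gl N e c (.core z) ↔ κ = .kap (c.lb z) := by simp [gl]

private theorem mGhoE {N e : ℕ} {c : Core V Q Λ B FB} {q : Q} (κ : Kd N Λ B FB) :
    κ ∈ gl N e c (.gho q e) ↔ κ = .kap (c.lb (c.ow ((c.nx^[e]) q))) ∨
      κ = .kap (c.lb (c.ow ((c.nx^[3 * e]) q))) := by simp [gl]

private theorem mGho {N e j : ℕ} {c : Core V Q Λ B FB} {q : Q} (h : j ≠ e) (κ : Kd N Λ B FB) :
    κ ∈ gl N e c (.gho q j) ↔ κ = .gam (c.bs (c.lb (c.ow q))) (c.fl q) ∨ κ = piK N j := by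
  simp [gl, h]

private theorem mTru {N e j : ℕ} {c : Core V Q Λ B FB} {z : V} (κ : Kd N Λ B FB) :
    κ ∈ gl N e c (.tru z j) ↔ κ = .del (c.lb z) ∨ κ = piK N j := by simp [gl]

/-- equality of labels of natural hubs which are no fans -/
private theorem glEq {N e : ℕ} {c : Core V Q Λ B FB} {s : Ch V Q} (hp : Par N e)
    (hc : CoreAx N e c) (hs : ChAx N c s) (hPb : StPb) {h h' : GH V Q (Kd N Λ B FB)}
    (hok : okG N e c h) (hok' : okG N e c h') (hf : ∀ z l, h ≠ .fan z l)
    (hf' : ∀ z l, h' ≠ .fan z l) (hl : gl N e c h = gl N e c h') :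
    (∃ z z', h = .core z ∧ h' = .core z' ∧ c.lb z = c.lb z') ∨
    (∃ q q' j, j ≠ e ∧ h = .gho q j ∧ h' = .gho q' j ∧ c.bs (c.lb (c.ow q)) = c.bs (c.lb (c.ow q')) ∧
      c.fl q = c.fl q') ∨
    (∃ q q', h = .gho q e ∧ h' = .gho q' e) ∨
    (∃ z z' j, h = .tru z j ∧ h' = .tru z' j ∧ c.lb z = c.lb z') := by
  have hm : ∀ κ, κ ∈ gl N e c h ↔ κ ∈ gl N e c h' := fun κ => by rw [hl]
  have hce : ∀ z q, (∀ κ, κ ∈ gl N e c (.core z : GH V Q (Kd N Λ B FB)) ↔
      κ ∈ gl N e c (.gho q e)) → False := by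
    intro z q h1
    have h2 := (h1 (.kap (c.lb (c.ow ((c.nx^[e]) q))))).2 ((mGhoE _).2 (Or.inl rfl))
    have h3 := (h1 (.kap (c.lb (c.ow ((c.nx^[3 * e]) q))))).2 ((mGhoE _).2 (Or.inr rfl))
    rw [mCore, Kd.kap.injEq] at h2 h3
    exact midNe hp hc hs hPb q (h2.trans h3.symm)
  have hcg : ∀ z q j, j ≠ e → (∀ κ, κ ∈ gl N e c (.core z : GH V Q (Kd N Λ B FB)) ↔
      κ ∈ gl N e c (.gho q j)) → False := by
    intro z q j hj h1
    have h2 := (h1 (.gam (c.bs (c.lb (c.ow q))) (c.fl q))).2 ((mGho hj _).2 (Or.inl rfl))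
    rw [mCore] at h2
    cases h2
  have hct : ∀ z z' j, (∀ κ, κ ∈ gl N e c (.core z : GH V Q (Kd N Λ B FB)) ↔
      κ ∈ gl N e c (.tru z' j)) → False := by
    intro z z' j h1
    have h2 := (h1 (.del (c.lb z'))).2 ((mTru _).2 (Or.inl rfl))
    rw [mCore] at h2
    cases h2
  have hgt : ∀ q j z' j', (∀ κ, κ ∈ gl N e c (.gho q j : GH V Q (Kd N Λ B FB)) ↔
      κ ∈ gl N e c (.tru z' j')) → False := by
    intro q j z' j' h1
    have h2 := (h1 (.del (c.lb z'))).2 ((mTru _).2 (Or.inl rfl))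
    by_cases hj : j = e
    · subst hj
      rw [mGhoE] at h2
      rcases h2 with h2 | h2 <;> cases h2
    · rw [mGho hj] at h2
      rcases h2 with h2 | h2 <;> cases h2
  have heg : ∀ q q' j, j ≠ e → (∀ κ, κ ∈ gl N e c (.gho q e : GH V Q (Kd N Λ B FB)) ↔
      κ ∈ gl N e c (.gho q' j)) → False := by
    intro q q' j hj h1
    have h2 := (h1 (.gam (c.bs (c.lb (c.ow q'))) (c.fl q'))).2 ((mGho hj _).2 (Or.inl rfl))
    rw [mGhoE] at h2
    rcases h2 with h2 | h2 <;> cases h2
  cases h with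
  | fan z l => exact absurd rfl (hf z l)
  | core z =>
    cases h' with
    | fan z l => exact absurd rfl (hf' z l)
    | core z' =>
      left
      refine ⟨z, z', rfl, rfl, ?_⟩
      simpa [mCore] using (hm (.kap (c.lb z))).1 ((mCore _).2 rfl)
    | gho q j =>
      exfalso
      by_cases hj : j = e
      · subst hj; exact hce z q hm
      · exact hcg z q j hj hm
    | tru z' j => exact (hct z z' j hm).elim
  | gho q j =>
    cases h' with
    | fan z l => exact absurd rfl (hf' z l)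
    | core z' =>
      exfalso
      by_cases hj : j = e
      · subst hj; exact hce z' q (fun κ => (hm κ).symm)
      · exact hcg z' q j hj (fun κ => (hm κ).symm)
    | gho q' j' =>
      right
      by_cases hj : j = e
      · by_cases hj' : j' = e
        · subst hj; subst hj'
          exact Or.inr (Or.inl ⟨q, q', rfl, rfl⟩)
        · subst hj; exact (heg q q' j' hj' hm).elim
      · by_cases hj' : j' = e
        · subst hj'; exact (heg q' q j hj (fun κ => (hm κ).symm)).elim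
        · left
          have h2 := (hm (.gam (c.bs (c.lb (c.ow q))) (c.fl q))).1 ((mGho hj _).2 (Or.inl rfl))
          have h3 := (hm (piK N j)).1 ((mGho hj _).2 (Or.inr rfl))
          rw [mGho hj'] at h2 h3
          rcases h2 with h2 | h2
          · rw [Kd.gam.injEq] at h2
            rcases h3 with h3 | h3
            · cases h3
            · have h4 := piK_inj hok.2 hok'.2 h3
              subst h4
              exact ⟨q, q', j, hj, rfl, rfl, h2.1, h2.2⟩
          · cases h2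
    | tru z' j' => exact (hgt q j z' j' hm).elim
  | tru z j =>
    cases h' with
    | fan z l => exact absurd rfl (hf' z l)
    | core z' => exact (hct z' z j (fun κ => (hm κ).symm)).elim
    | gho q' j' => exact (hgt q' j' z j (fun κ => (hm κ).symm)).elim
    | tru z' j' =>
      right; right; right
      have h2 := (hm (.del (c.lb z))).1 ((mTru _).2 (Or.inl rfl))
      have h3 := (hm (piK N j)).1 ((mTru _).2 (Or.inr rfl))
      rw [mTru] at h2 h3
      rcases h2 with h2 | h2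
      · rw [Kd.del.injEq] at h2
        rcases h3 with h3 | h3
        · cases h3
        · have h4 := piK_inj hok.2.le hok'.2.le h3
          subst h4
          exact ⟨z, z', j, rfl, rfl, h2⟩
      · cases h2

private theorem natI (N e : ℕ) (c : Core V Q Λ B FB) (s : Ch V Q) (hp : Par N e)
    (hc : CoreAx N e c) (hs : ChAx N c s) (hPb : StPb) (b : Bool) (u : V)
    (h h' : GH V Q (Kd N Λ B FB))
    (hok : okT N e c s (.nat b u h)) (hok' : okT N e c s (.nat b u h'))
    (hl : gl N e c h = gl N e c h') :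
    h = h' ∨ (b = true ∧ ∃ l, h = .fan u l) ∨ (b = true ∧ ∃ l, h' = .fan u l) ∨
      ∃ q q', h = .gho q e ∧ h' = .gho q' e := by
  by_cases hf : ∃ z l, h = .fan z l
  · obtain ⟨z, l, rfl⟩ := hf
    obtain ⟨h1, rfl⟩ := fanOwn hp hc hok
    exact Or.inr (Or.inl ⟨h1, l, rfl⟩)
  by_cases hf' : ∃ z l, h' = .fan z l
  · obtain ⟨z, l, rfl⟩ := hf'
    obtain ⟨h1, rfl⟩ := fanOwn hp hc hok'
    exact Or.inr (Or.inr (Or.inl ⟨h1, l, rfl⟩))
  push Not at hf hf'
  have ho := ownLe hok
  have ho' := ownLe hok'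
  rcases glEq hp hc hs hPb hok.2.1 hok'.2.1 hf hf' hl with ⟨z, z', rfl, rfl, h1⟩ |
    ⟨q, q', j, hj, rfl, rfl, h1, h2⟩ | ⟨q, q', h1, h2⟩ | ⟨z, z', j, rfl, rfl, h1⟩
  · left
    rw [bsEq hc (z := z) (z' := z') ho ho' (by rw [h1])]
  · left
    rw [hc.k8 q q' (bsEq hc (z := c.ow q) (z' := c.ow q') ho ho' h1) h2]
  · exact Or.inr (Or.inr (Or.inr ⟨q, q', h1, h2⟩))
  · left
    rw [bsEq hc (z := z) (z' := z') ho ho' (by rw [h1])]

/-- kinds of type `gam` in the union of two labels -/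
private theorem uGam {N e : ℕ} {c : Core V Q Λ B FB} {s : Ch V Q} (he : 20 ≤ e) {b : Bool} {u : V}
    {q : Q} {j : ℕ} (b' : B) (f' : FB) :
    ((Kd.gam b' f' : Kd N Λ B FB) ∈ gl N e c (.gho q j) ∨
      (Kd.gam b' f' : Kd N Λ B FB) ∈ gl N e c (pb N e c s b u (.gho q j))) ↔
      (b' = c.bs (c.lb (c.ow q)) ∧ f' = c.fl q) := by
  simp only [pb, GH.dp]
  by_cases hj : j = e
  · subst hj
    rw [if_neg (by omega), mGhoE, mGho (by omega), Kd.gam.injEq]
    simp [piK]
  · by_cases h1 : j ≤ 1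
    · rw [if_pos h1, mGho hj, mCore, Kd.gam.injEq]
      simp [piK]
    · rw [if_neg h1, mGho hj]
      by_cases h2 : j - 1 = e
      · rw [h2, mGhoE, Kd.gam.injEq]
        simp [piK]
      · rw [mGho h2, Kd.gam.injEq]
        simp [piK]

private theorem uGamC {N e : ℕ} {c : Core V Q Λ B FB} {s : Ch V Q} {b : Bool} {u z w : V}
    (hw : pb N e c s b u (.core z : GH V Q (Kd N Λ B FB)) = .core w) (κ : Kd N Λ B FB) :
    (κ ∈ gl N e c (.core z) ∨ κ ∈ gl N e c (pb N e c s b u (.core z))) ↔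
      κ = .kap (c.lb z) ∨ κ = .kap (c.lb w) := by
  rw [hw, mCore, mCore]

private theorem uGamT {N e : ℕ} {c : Core V Q Λ B FB} {s : Ch V Q} {b : Bool} {u z : V} {j : ℕ}
    (b' : B) (f' : FB) :
    ¬ ((Kd.gam b' f' : Kd N Λ B FB) ∈ gl N e c (.tru z j) ∨
      (Kd.gam b' f' : Kd N Λ B FB) ∈ gl N e c (pb N e c s b u (.tru z j))) := by
  simp only [pb, GH.dp]
  by_cases h1 : j ≤ 1
  · rw [if_pos h1, mTru, mCore]
    simp [piK]
  · rw [if_neg h1, mTru, mTru]
    simp [piK]

private theorem uDelT {N e : ℕ} {c : Core V Q Λ B FB} {s : Ch V Q} {b : Bool} {u z : V} {j : ℕ}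
    (l : Λ) :
    ((Kd.del l : Kd N Λ B FB) ∈ gl N e c (.tru z j) ∨
      (Kd.del l : Kd N Λ B FB) ∈ gl N e c (pb N e c s b u (.tru z j))) ↔ l = c.lb z := by
  simp only [pb, GH.dp]
  by_cases h1 : j ≤ 1
  · rw [if_pos h1, mTru, mCore]
    simp [piK]
  · rw [if_neg h1, mTru, mTru]
    simp [piK]

private theorem distTri {N e : ℕ} {c : Core V Q Λ B FB} (hc : CoreAx N e c) (u z w : V) :
    c.G.dist z w ≤ c.G.dist u z + c.G.dist u w := by
  have h3 := hc.conn.dist_triangle (u := z) (v := u) (w := w)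
  rwa [SimpleGraph.dist_comm (u := z) (v := u)] at h3

/-- the parent of a core vertex above the critical level -/
private theorem pbFar {N e : ℕ} {c : Core V Q Λ B FB} {s : Ch V Q} (hp : Par N e)
    (hc : CoreAx N e c) (hs : ChAx N c s) (hPb : StPb) {b : Bool} {u z : V}
    (h : 2 * e < c.G.dist u z) :
    ∃ w, pb N e c s b u (.core z : GH V Q (Kd N Λ B FB)) = .core w ∧
      c.G.dist u w + 1 = c.G.dist u z := by
  refine ⟨s.pr u z, ?_, ?_⟩
  · simp only [pb]
    rw [dif_neg]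
    rintro ⟨_, q, rfl, rfl⟩
    have := ((hPb (K := Unit) N e c s hp hc hs true (c.ow q)).2.2 q rfl).2.2.1
    omega
  · refine (hs.pr u z ?_).2
    rintro rfl
    simp at h

/-- caps are determined by the plain part of their label -/
private theorem capH {N e : ℕ} {c : Core V Q Λ B FB} {s : Ch V Q} (hp : Par N e)
    (hc : CoreAx N e c) (hs : ChAx N c s) (hPb : StPb) {b : Bool} {u : V}
    {h h' : GH V Q (Kd N Λ B FB)} (hok : okT N e c s (.cap b u h))
    (hok' : okT N e c s (.cap b u h'))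
    (hm : ∀ κ, PlK κ → ((κ ∈ gl N e c h ∨ κ ∈ gl N e c (pb N e c s b u h)) ↔
      (κ ∈ gl N e c h' ∨ κ ∈ gl N e c (pb N e c s b u h')))) : h = h' := by
  have hpar := hp
  unfold Par at hpar
  have hdep : 2 * N - 1 ≤ dep N b ∧ dep N b ≤ 2 * N := by unfold dep; split_ifs <;> omega
  have nofan : ∀ h : GH V Q (Kd N Λ B FB), okT N e c s (.cap b u h) → ∀ z l, h ≠ .fan z l := by
    rintro h ⟨h1, h2, h3, h4, h5⟩ z l rfl
    simp only [lev, GH.own, GH.ht] at h3
    cases b with
    | false => simp only [dep] at h3; norm_num at h3; omega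
    | true =>
      simp only [dep, if_true] at h3
      have h6 : c.G.dist u z = 0 := by omega
      have h7 := (hc.conn.preconnected u z).dist_eq_zero_iff.1 h6
      subst h7
      exact h4 rfl l rfl
  have hf := nofan h hok
  have hf' := nofan h' hok'
  have hl := hok.2.2.1
  have hl' := hok'.2.2.1
  have hg := hok.2.1
  have hg' := hok'.2.1
  -- core versus ghost, core versus trunk, ghost versus trunk
  have hcg : ∀ (z : V) (q : Q) (j : ℕ), lev N c u (.core z : GH V Q (Kd N Λ B FB)) = dep N b →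
      (∀ κ, PlK κ → ((κ ∈ gl N e c (.core z) ∨ κ ∈ gl N e c (pb N e c s b u (.core z))) ↔
      (κ ∈ gl N e c (.gho q j) ∨ κ ∈ gl N e c (pb N e c s b u (.gho q j))))) → False := by
    intro z q j h1 h2
    have h3 : 2 * e < c.G.dist u z := by simp only [lev, GH.own, GH.ht] at h1; omega
    obtain ⟨w, h4, _⟩ := pbFar (b := b) hp hc hs hPb h3
    have h5 := (h2 (.gam (c.bs (c.lb (c.ow q))) (c.fl q)) trivial).2
      ((uGam hpar.2 _ _).2 ⟨rfl, rfl⟩)
    rw [uGamC h4] at h5
    rcases h5 with h5 | h5 <;> cases h5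
  have hct : ∀ (z z' : V) (j : ℕ), lev N c u (.core z : GH V Q (Kd N Λ B FB)) = dep N b →
      (∀ κ, PlK κ → ((κ ∈ gl N e c (.core z) ∨ κ ∈ gl N e c (pb N e c s b u (.core z))) ↔
      (κ ∈ gl N e c (.tru z' j) ∨ κ ∈ gl N e c (pb N e c s b u (.tru z' j))))) → False := by
    intro z z' j h1 h2
    have h3 : 2 * e < c.G.dist u z := by simp only [lev, GH.own, GH.ht] at h1; omega
    obtain ⟨w, h4, _⟩ := pbFar (b := b) hp hc hs hPb h3
    have h5 := (h2 (.del (c.lb z')) trivial).2 ((uDelT _).2 rfl)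
    rw [uGamC h4] at h5
    rcases h5 with h5 | h5 <;> cases h5
  have hgt : ∀ (q : Q) (j : ℕ) (z' : V) (j' : ℕ),
      (∀ κ, PlK κ → ((κ ∈ gl N e c (.gho q j) ∨ κ ∈ gl N e c (pb N e c s b u (.gho q j))) ↔
      (κ ∈ gl N e c (.tru z' j') ∨ κ ∈ gl N e c (pb N e c s b u (.tru z' j'))))) → False := by
    intro q j z' j' h2
    have h5 := (h2 (.gam (c.bs (c.lb (c.ow q))) (c.fl q)) trivial).1
      ((uGam hpar.2 _ _).2 ⟨rfl, rfl⟩)
    exact uGamT _ _ h5
  cases h with
  | fan z l => exact absurd rfl (hf z l)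
  | core z =>
    cases h' with
    | fan z l => exact absurd rfl (hf' z l)
    | gho q j => exact (hcg z q j hl hm).elim
    | tru z' j => exact (hct z z' j hl hm).elim
    | core z' =>
      simp only [lev, GH.own, GH.ht, Nat.add_zero] at hl hl'
      obtain ⟨w, h4, h5⟩ := pbFar (b := b) hp hc hs hPb (u := u) (z := z) (by omega)
      obtain ⟨w', h4', h5'⟩ := pbFar (b := b) hp hc hs hPb (u := u) (z := z') (by omega)
      have h6 := (hm (.kap (c.lb z)) trivial).1 ((uGamC h4 _).2 (Or.inl rfl))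
      rw [uGamC h4', Kd.kap.injEq, Kd.kap.injEq] at h6
      rcases h6 with h6 | h6
      · rw [bsEq hc (u := u) (z := z) (z' := z') (by omega) (by omega) (by rw [h6])]
      · exfalso
        have h7 := bsEq hc (u := u) (z := z) (z' := w') (by omega) (by omega) (by rw [h6])
        subst h7
        omega
  | gho q j =>
    cases h' with
    | fan z l => exact absurd rfl (hf' z l)
    | core z' => exact (hcg z' q j hl' (fun κ hκ => (hm κ hκ).symm)).elim
    | gho q' j' =>
      have h1 := (hm (.gam (c.bs (c.lb (c.ow q))) (c.fl q)) trivial).1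
        ((uGam hpar.2 _ _).2 ⟨rfl, rfl⟩)
      rw [uGam hpar.2] at h1
      simp only [lev, GH.own, GH.ht] at hl hl'
      have h2 : q = q' := hc.k8 q q' (bsEq hc (u := u) (by omega) (by omega) h1.1) h1.2
      subst h2
      have h3 : j = j' := by omega
      rw [h3]
    | tru z' j' => exact (hgt q j z' j' hm).elim
  | tru z j =>
    cases h' with
    | fan z l => exact absurd rfl (hf' z l)
    | core z' => exact (hct z' z j hl' (fun κ hκ => (hm κ hκ).symm)).elim
    | gho q' j' => exact (hgt q' j' z j (fun κ hκ => (hm κ hκ).symm)).elim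
    | tru z' j' =>
      have h1 := (hm (.del (c.lb z)) trivial).1 ((uDelT _).2 rfl)
      rw [uDelT] at h1
      simp only [lev, GH.own, GH.ht] at hl hl'
      have h2 : z = z' := bsEq hc (u := u) (by omega) (by omega) (by rw [h1])
      subst h2
      have h3 : j = j' := by omega
      rw [h3]

end

section

variable {V Q Λ B FB : Type} [Fintype Λ] [Fintype B] [Fintype FB]

private theorem capI (N e : ℕ) (c : Core V Q Λ B FB) (s : Ch V Q) (hp : Par N e)
    (hc : CoreAx N e c) (hs : ChAx N c s) (hPb : StPb) (x y : TH V Q (Kd N Λ B FB))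
    (hx : okT N e c s x) (hy : okT N e c s y)
    (hl : tl N e c s x = tl N e c s y) (hn : ∀ b u h, x ≠ .nat b u h) : x = y := by
  have hm : ∀ κ, κ ∈ tl N e c s x ↔ κ ∈ tl N e c s y := fun κ => by rw [hl]
  have hb : ∀ b b' : Bool, ((if b = true then 1 else 0 : Fin 4) = if b' = true then 1 else 0) →
      b = b' := by decide
  have hb2 : ∀ b : Bool, (2 : Fin 4) ≠ if b = true then 1 else 0 := by decide
  have hb3 : ∀ b : Bool, (3 : Fin 4) ≠ if b = true then 1 else 0 := by decide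
  have uu : ∀ u u', s.rp u = u → s.rp u' = u' →
      (∀ (l : Λ) (d : Fin (2 * N)), (l, (d : ℕ)) ∈ TS N c u ↔ (l, (d : ℕ)) ∈ TS N c u') →
      u = u' := by
    intro u u' h1 h2 h3
    rw [← h1, ← h2]
    exact hs.rp2 u u' (TSeq h3)
  cases x with
  | nat b u h => exact absurd rfl (hn b u h)
  | cap b u h =>
    cases y with
    | nat b' u' h' =>
      exfalso
      have h1 := (hm (.fg (if b = true then 1 else 0))).1 ((capFg hx.2.1 _).2 rfl)
      exact okPl hy.2.1 h1
    | cap b' u' h' =>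
      have h1 := (hm (.fg (if b = true then 1 else 0))).1 ((capFg hx.2.1 _).2 rfl)
      rw [capFg hy.2.1] at h1
      have h2 := hb _ _ h1
      subst h2
      have h3 := uu u u' hx.1 hy.1 (fun l d => by
        rw [← capTy (s := s) (b := b) hx.2.1, ← capTy (s := s) (b := b) hy.2.1, hm])
      subst h3
      rw [capH hp hc hs hPb hx hy (fun κ hκ => by rw [← capP κ hκ, ← capP κ hκ, hm])]
    | pth b' u' j' =>
      exfalso
      have h1 := (hm (.fg 2)).2 ((pthFg _).2 (Or.inl rfl))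
      rw [capFg hx.2.1] at h1
      exact hb2 _ h1
    | rt =>
      exfalso
      have h1 := (hm (.fg 3)).2 (by simp [tl])
      rw [capFg hx.2.1] at h1
      exact hb3 _ h1
  | pth b u j =>
    cases y with
    | nat b' u' h' =>
      exfalso
      have h1 := (hm (.fg 2)).1 ((pthFg _).2 (Or.inl rfl))
      exact okPl hy.2.1 h1
    | cap b' u' h' =>
      exfalso
      have h1 := (hm (.fg 2)).1 ((pthFg _).2 (Or.inl rfl))
      rw [capFg hy.2.1] at h1
      exact hb2 _ h1
    | pth b' u' j' =>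
      have h1 := (hm (.fg (if b = true then 1 else 0))).1 ((pthFg _).2 (Or.inr rfl))
      rw [pthFg] at h1
      have h2 : b = b' := by
        rcases h1 with h1 | h1
        · exact absurd h1.symm (hb2 _)
        · exact hb _ _ h1
      subst h2
      have h3 := uu u u' hx.1 hy.1 (fun l d => by
        rw [← pthTy (N := N) (e := e) (c := c) (s := s) (b := b) (j := j),
          ← pthTy (N := N) (e := e) (c := c) (s := s) (b := b) (j := j'), hm])
      subst h3
      have h5 : PlK (piK N j : Kd N Λ B FB) := by unfold piK; exact trivial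
      have h4 := (hm (piK N j)).1 ((pthP _ h5).2 rfl)
      rw [pthP _ h5] at h4
      rw [piK_inj hx.2.2 hy.2.2 h4]
    | rt =>
      exfalso
      have h1 := (hm (.fg 2)).1 ((pthFg _).2 (Or.inl rfl))
      simp [tl] at h1
  | rt =>
    have h0 : (Kd.fg 3 : Kd N Λ B FB) ∈ tl N e c s .rt := by simp [tl]
    have h1 := (hm (.fg 3)).1 h0
    cases y with
    | nat b' u' h' =>
      exact (okPl hy.2.1 h1).elim
    | cap b' u' h' =>
      rw [capFg hy.2.1] at h1
      exact absurd h1 (hb3 _)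
    | pth b' u' j' =>
      rw [pthFg] at h1
      rcases h1 with h1 | h1
      · exact absurd h1 (by decide)
      · exact absurd h1 (hb3 _)
    | rt => rfl

end

section

variable {V Q Λ B FB : Type}

/-- adjacency of natural hubs in a piece -/
private def NA {K : Type} (N e : ℕ) (c : Core V Q Λ B FB) (s : Ch V Q) (b : Bool) (u : V)
    (h g : GH V Q K) : Prop :=
  (h ≠ .core u ∧ g = pb N e c s b u h) ∨ (g ≠ .core u ∧ h = pb N e c s b u g)

private theorem NAsymm {K : Type} {N e : ℕ} {c : Core V Q Λ B FB} {s : Ch V Q} {b : Bool} {u : V}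
    {h g : GH V Q K} (h1 : NA N e c s b u h g) : NA N e c s b u g h := Or.symm h1

private theorem adjNat {N e : ℕ} {c : Core V Q Λ B FB} {s : Ch V Q} {b : Bool} {u : V}
    {h : GH V Q (Kd N Λ B FB)} {x y : TV N e c s} (h1 : (TG N e c s).Adj x y)
    (h2 : x.1 = .nat b u h) :
    (∃ g, y.1 = .nat b u g ∧ NA N e c s b u h g) ∨ y.1 = .cap b u h := by
  obtain ⟨_, h3⟩ := h1
  rw [h2] at h3
  obtain ⟨y, hy⟩ := y
  cases y with
  | nat b' u' h' =>
    left
    rcases h3 with ⟨rfl, rfl, h4, h5⟩ | ⟨rfl, rfl, h4, h5⟩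
    · exact ⟨h', rfl, Or.inl ⟨h4, h5⟩⟩
    · exact ⟨h', rfl, Or.inr ⟨h4, h5⟩⟩
  | cap b' u' h' =>
    right
    rcases h3 with h3 | ⟨rfl, rfl, rfl⟩
    · exact h3.elim
    · rfl
  | pth b' u' j' => rcases h3 with h3 | h3 <;> exact h3.elim
  | rt => rcases h3 with h3 | h3 <;> exact h3.elim

private theorem near2 {X : Type} (G : SimpleGraph X) (x y : X) (hxy : x ≠ y)
    (h : G.edist x y ≤ 2) : G.Adj x y ∨ ∃ z, G.Adj x z ∧ G.Adj z y := by
  have h1 : G.edist x y ≠ ⊤ := by
    intro h2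
    rw [h2] at h
    exact absurd h (by decide)
  obtain ⟨w, hw⟩ := SimpleGraph.exists_walk_of_edist_ne_top h1
  rw [← hw] at h
  have h2 : w.length ≤ 2 := by exact_mod_cast h
  match w, h2 with
  | .nil, _ => exact absurd rfl hxy
  | .cons h3 .nil, _ => exact Or.inl h3
  | .cons h3 (.cons h4 .nil), _ => exact Or.inr ⟨_, h3, h4⟩

private theorem near2' {X : Type} (G : SimpleGraph X) (x y z : X) (h1 : G.Adj x z)
    (h2 : G.Adj z y) : G.edist x y ≤ 2 := by
  have h3 := SimpleGraph.Walk.edist_le (SimpleGraph.Walk.cons h1 (SimpleGraph.Walk.cons h2 .nil))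
  exact h3

private theorem fanNb {K : Type} {N e : ℕ} {c : Core V Q Λ B FB} {s : Ch V Q} {b : Bool} {u z : V}
    {l : Finset K} {g : GH V Q K} (h1 : NA N e c s b u (.fan z l) g) :
    g = .tru z (2 * N - 1) := by
  rcases h1 with ⟨_, h2⟩ | ⟨_, h2⟩
  · exact h2
  · exact absurd h2.symm (pbNF b u g z l)

private theorem ghoNb {K : Type} {N e : ℕ} {c : Core V Q Λ B FB} {s : Ch V Q} {b : Bool} {u : V}
    (he : 20 ≤ e) {q : Q} {g : GH V Q K} (h1 : NA N e c s b u (.gho q e) g) :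
    g = .gho q (e - 1) ∨ g = .gho q (e + 1) := by
  rcases h1 with ⟨_, h2⟩ | ⟨_, h2⟩
  · left
    rw [h2]
    simp only [pb, GH.dp]
    rw [if_neg (by omega)]
  · right
    cases g with
    | core z =>
      exfalso
      simp only [pb] at h2
      split_ifs at h2
      rw [GH.gho.injEq] at h2
      omega
    | gho q' j =>
      simp only [pb, GH.dp] at h2
      split_ifs at h2
      rw [GH.gho.injEq] at h2
      rw [h2.1, h2.2]
      congr 1
      omega
    | tru z j =>
      exfalso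
      simp only [pb, GH.dp] at h2
      split_ifs at h2
    | fan z l =>
      exfalso
      simp [pb, GH.dp] at h2

/-- a hub next to the end of a trunk -/
private theorem endNb {N e : ℕ} {c : Core V Q Λ B FB} {s : Ch V Q} (hp : Par N e) {b : Bool}
    {u z : V} {g : GH V Q (Kd N Λ B FB)} (hok : okG N e c g)
    (h1 : NA N e c s b u (.tru z (2 * N - 1)) g) :
    g = .tru z (2 * N - 2) ∨ ∃ l, g = .fan z l := by
  unfold Par at hp
  rcases h1 with ⟨_, h2⟩ | ⟨_, h2⟩
  · left
    rw [h2]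
    simp only [pb, GH.dp]
    rw [if_neg (by omega)]
    congr 1
  · right
    cases g with
    | core z' =>
      exfalso
      simp only [pb] at h2
      split_ifs at h2
    | gho q' j =>
      exfalso
      simp only [pb, GH.dp] at h2
      split_ifs at h2
    | tru z' j =>
      exfalso
      simp only [pb, GH.dp] at h2
      split_ifs at h2
      rw [GH.tru.injEq] at h2
      have := hok.2
      omega
    | fan z' l =>
      simp only [pb, GH.dp, GH.tru.injEq] at h2
      exact ⟨l, by rw [h2.1]⟩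

/-- own fans -/
private theorem fanInj {N e : ℕ} {c : Core V Q Λ B FB} {s : Ch V Q} (hp : Par N e) {b : Bool}
    {u z : V} {l : Finset (Kd N Λ B FB)} {g : GH V Q (Kd N Λ B FB)}
    (hokf : okG N e c (.fan z l)) (hok : okG N e c g)
    (h1 : NA N e c s b u (.fan z l) g ∨ ∃ k, NA N e c s b u (.fan z l) k ∧ NA N e c s b u k g)
    (hl : l = gl N e c g) : g = .fan z l := by
  unfold Par at hp
  rcases h1 with h1 | ⟨k, h1, h2⟩
  · exfalso
    rw [fanNb h1] at hl
    exact hokf.2 _ (by omega) (by omega) hl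
  · rw [fanNb h1] at h2
    rcases endNb hp hok h2 with h3 | ⟨l', h3⟩
    · exfalso
      rw [h3] at hl
      exact hokf.2 _ (by omega) (by omega) hl
    · rw [h3] at hl ⊢
      rw [show l = l' from hl]

end

section

variable {V Q Λ B FB : Type} [Fintype Λ] [Fintype B] [Fintype FB]

private theorem injI (N e : ℕ) (c : Core V Q Λ B FB) (s : Ch V Q) (hp : Par N e)
    (hc : CoreAx N e c) (hs : ChAx N c s) (hPb : StPb) (x y : TV N e c s) (hxy : x ≠ y)
    (hd : (TG N e c s).edist x y ≤ 2) (hl : tL N e c s x = tL N e c s y) : False := by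
  have hpar := hp
  unfold Par at hpar
  by_cases hx : ∀ b u h, x.1 ≠ .nat b u h
  · exact hxy (Subtype.ext (capI N e c s hp hc hs hPb x.1 y.1 x.2 y.2 hl hx))
  by_cases hy : ∀ b u h, y.1 ≠ .nat b u h
  · exact hxy (Subtype.ext (capI N e c s hp hc hs hPb y.1 x.1 y.2 x.2 hl.symm hy)).symm
  push Not at hx hy
  obtain ⟨b, u, h, hx⟩ := hx
  obtain ⟨b', u', h', hy⟩ := hy
  -- the same piece
  have key : b' = b ∧ u' = u ∧ (NA N e c s b u h h' ∨
      ∃ k, NA N e c s b u h k ∧ NA N e c s b u k h') := by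
    rcases near2 _ x y hxy hd with h1 | ⟨z, h1, h2⟩
    · rcases adjNat h1 hx with ⟨g, h3, h4⟩ | h3
      · rw [hy, TH.nat.injEq] at h3
        obtain ⟨rfl, rfl, rfl⟩ := h3
        exact ⟨rfl, rfl, Or.inl h4⟩
      · rw [hy] at h3; cases h3
    · rcases adjNat h1 hx with ⟨g, h3, h4⟩ | h3
      · rcases adjNat h2 h3 with ⟨g', h5, h6⟩ | h5
        · rw [hy, TH.nat.injEq] at h5
          obtain ⟨rfl, rfl, rfl⟩ := h5
          exact ⟨rfl, rfl, Or.inr ⟨g, h4, h6⟩⟩
        · rw [hy] at h5; cases h5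
      · exfalso
        rcases adjNat h2.symm hy with ⟨g', h5, h6⟩ | h5
        · rw [h3] at h5; cases h5
        · rw [h3, TH.cap.injEq] at h5
          obtain ⟨rfl, rfl, rfl⟩ := h5
          exact hxy (Subtype.ext (hx.trans hy.symm))
  obtain ⟨rfl, rfl, hna⟩ := key
  have hok := x.2
  have hok' := y.2
  rw [hx] at hok
  rw [hy] at hok'
  have hgl : gl N e c h = gl N e c h' := by
    unfold tL at hl
    rw [hx, hy] at hl
    exact hl
  have hne : h ≠ h' := by
    rintro rfl
    exact hxy (Subtype.ext (hx.trans hy.symm))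
  have hna' : NA N e c s b' u' h' h ∨ ∃ k, NA N e c s b' u' h' k ∧ NA N e c s b' u' k h := by
    rcases hna with h1 | ⟨k, h1, h2⟩
    · exact Or.inl (NAsymm h1)
    · exact Or.inr ⟨k, NAsymm h2, NAsymm h1⟩
  rcases natI N e c s hp hc hs hPb b' u' h h' hok hok' hgl with h1 | ⟨_, l, rfl⟩ | ⟨_, l, rfl⟩ |
    ⟨q, q', rfl, rfl⟩
  · exact hne h1
  · exact hne (fanInj hp hok.2.1 hok'.2.1 hna hgl).symm
  · exact hne (fanInj hp hok'.2.1 hok.2.1 hna' hgl.symm)
  · rcases hna with h1 | ⟨k, h1, h2⟩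
    · rcases ghoNb hpar.2 h1 with h3 | h3 <;> rw [GH.gho.injEq] at h3 <;> omega
    · have h4 := ghoNb hpar.2 h1
      have h5 := ghoNb hpar.2 (NAsymm h2)
      apply hne
      rcases h4 with rfl | rfl <;> rcases h5 with h5 | h5 <;> rw [GH.gho.injEq] at h5 <;>
        rw [h5.1]

private theorem edgeI (N e : ℕ) (c : Core V Q Λ B FB) (s : Ch V Q) (hp : Par N e)
    (hc : CoreAx N e c) (hs : ChAx N c s) (hPb : StPb) (x y x' y' : TV N e c s)
    (hxy : (TG N e c s).Adj x y) (hxy' : (TG N e c s).Adj x' y') (hpc : pc x.1 = pc y'.1)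
    (_hne : pc x.1 ≠ none) (hl : tL N e c s x = tL N e c s x') (hl' : tL N e c s y = tL N e c s y') :
    x = x' ∧ y = y' := by
  have hpar := hp
  unfold Par at hpar
  have two : x = x' → x = x' ∧ y = y' := by
    rintro rfl
    refine ⟨rfl, ?_⟩
    by_contra h1
    exact injI N e c s hp hc hs hPb y y' h1 (near2' _ y y' x hxy.symm hxy') hl'
  have two' : y = y' → x = x' ∧ y = y' := by
    rintro rfl
    refine ⟨?_, rfl⟩
    by_contra h1
    exact injI N e c s hp hc hs hPb x x' h1 (near2' _ x x' y hxy hxy'.symm) hl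
  by_cases h1 : ∀ b u h, x.1 ≠ .nat b u h
  · exact two (Subtype.ext (capI N e c s hp hc hs hPb x.1 x'.1 x.2 x'.2 hl h1))
  by_cases h2 : ∀ b u h, x'.1 ≠ .nat b u h
  · exact two (Subtype.ext (capI N e c s hp hc hs hPb x'.1 x.1 x'.2 x.2 hl.symm h2)).symm
  by_cases h3 : ∀ b u h, y.1 ≠ .nat b u h
  · exact two' (Subtype.ext (capI N e c s hp hc hs hPb y.1 y'.1 y.2 y'.2 hl' h3))
  by_cases h4 : ∀ b u h, y'.1 ≠ .nat b u h
  · exact two' (Subtype.ext (capI N e c s hp hc hs hPb y'.1 y.1 y'.2 y.2 hl'.symm h4)).symm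
  push Not at h1 h2 h3 h4
  obtain ⟨b, u, h, hx⟩ := h1
  obtain ⟨b1, u1, h', hx'⟩ := h2
  obtain ⟨b2, u2, g, hy⟩ := h3
  obtain ⟨b3, u3, g', hy'⟩ := h4
  have key : ∀ (x y : TV N e c s) (b u h b2 u2 g), (TG N e c s).Adj x y → x.1 = .nat b u h →
      y.1 = .nat b2 u2 g → b2 = b ∧ u2 = u ∧ NA N e c s b u h g := by
    intro x y b u h b2 u2 g h1 h2 h3
    rcases adjNat h1 h2 with ⟨g1, h4, h5⟩ | h4
    · rw [h3, TH.nat.injEq] at h4
      obtain ⟨rfl, rfl, rfl⟩ := h4
      exact ⟨rfl, rfl, h5⟩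
    · rw [h3] at h4; cases h4
  obtain ⟨rfl, rfl, hna⟩ := key x y b u h b2 u2 g hxy hx hy
  obtain ⟨rfl, rfl, hna'⟩ := key x' y' b1 u1 h' b3 u3 g' hxy' hx' hy'
  rw [hx, hy'] at hpc
  simp only [pc, Option.some.injEq, Prod.mk.injEq] at hpc
  obtain ⟨rfl, rfl⟩ := hpc
  have ox := x.2
  have oy := y.2
  have ox' := x'.2
  have oy' := y'.2
  rw [hx] at ox
  rw [hy] at oy
  rw [hx'] at ox'
  rw [hy'] at oy'
  unfold tL at hl hl'
  rw [hx, hx'] at hl
  rw [hy, hy'] at hl'
  change gl N e c h = gl N e c h' at hl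
  change gl N e c g = gl N e c g' at hl'
  have ex := natI N e c s hp hc hs hPb b2 u2 h h' ox ox' hl
  have ey := natI N e c s hp hc hs hPb b2 u2 g g' oy oy' hl'
  rcases ex with rfl | ex
  · exact two (Subtype.ext (hx.trans hx'.symm))
  rcases ey with rfl | ey
  · exact two' (Subtype.ext (hy.trans hy'.symm))
  exfalso
  rcases ex with ⟨_, l, rfl⟩ | ⟨_, l, rfl⟩ | ⟨q, q', rfl, rfl⟩
  · have h5 := fanNb hna
    rw [h5] at hl' ey
    rcases ey with ⟨_, l', h6⟩ | ⟨_, l', h6⟩ | ⟨q, q', h6, h7⟩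
    · cases h6
    · rw [h6] at hl' oy'
      exact oy'.2.1.2 _ (by omega) (by omega) hl'.symm
    · cases h6
  · have h5 := fanNb hna'
    rw [h5] at hl' ey
    rcases ey with ⟨_, l', h6⟩ | ⟨_, l', h6⟩ | ⟨q, q', h6, h7⟩
    · rw [h6] at hl' oy
      exact oy.2.1.2 _ (by omega) (by omega) hl'
    · cases h6
    · cases h7
  · have h5 := ghoNb hpar.2 hna
    have h6 := ghoNb hpar.2 hna'
    rcases ey with ⟨_, l', h7⟩ | ⟨_, l', h7⟩ | ⟨q1, q1', h7, h8⟩
    · rcases h5 with h5 | h5 <;> rw [h5] at h7 <;> cases h7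
    · rcases h6 with h6 | h6 <;> rw [h6] at h7 <;> cases h7
    · rcases h5 with h5 | h5 <;> rw [h5, GH.gho.injEq] at h7 <;> omega

end

/-- Module Tinj. -/
theorem pTinj (hPb : StPb) : StTinj where
  hub := by
    intro V Q Λ B FB _ _ _ N e c s hp hc hs x
    rcases x with x | x
    · exact hubT hp hc hs x.1 x.2
    · have h2 : ∀ k : ℕ, k ≤ 2 → k ≠ 3 ∧ k ≠ 4 ∧ k ≠ 5 := by omega
      exact h2 _ (glCard x.2)
  inj := by
    intro V Q Λ B FB _ _ _ N e c s hp hc hs x y hxy hd hl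
    exact injI N e c s hp hc hs hPb x y hxy hd hl
  cap := by
    intro V Q Λ B FB _ _ _ N e c s hp hc hs x y hl hn
    exact Subtype.ext (capI N e c s hp hc hs hPb x.1 y.1 x.2 y.2 hl hn)
  nat := by
    intro V Q Λ B FB N e c s hp hc hs b u h h' hok hok' hl
    exact natI N e c s hp hc hs hPb b u h h' hok hok' hl
  edge := by
    intro V Q Λ B FB _ _ _ N e c s hp hc hs x y x' y' hxy hxy' hpc hne hl hl'
    exact edgeI N e c s hp hc hs hPb x y x' y' hxy hxy' hpc hne hl hl'

end Pool.Agent.Helper65.LD
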